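import Pool.Agent.Lib.MP_587b89_lc.Count

/-!
An effective form of the Stepanov-Bombieri bounds, for an abstract filtration.
-/

set_option autoImplicit false
set_option linter.unusedSectionVars false
set_option linter.overlappingInstances false
open Polynomial Module WithZero

namespace Pool.Agent.Lib.MP_587b89_lc.Lin

/-- a filtration by the order of the poles at infinity -/
structure Filt (k B : Type) [Field k] [CommRing B] [Algebra k B] (D c : ℕ) where
  V : ℕ → Submodule k B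
  mono : ∀ {a b : ℕ}, a ≤ b → V a ≤ V b
  one : (1 : B) ∈ V 0
  mul : ∀ {a b : ℕ} {f g : B}, f ∈ V a → g ∈ V b → f * g ∈ V (a + b)
  fin : ∀ {f : B}, f ≠ 0 → Module.Finite k (B ⧸ Ideal.span {f})
  quot : ∀ {n : ℕ} {f : B}, f ∈ V n → f ≠ 0 → finrank k (B ⧸ Ideal.span {f}) ≤ D * n
  dim : ∀ n : ℕ, ∃ w : Fin (D * (n + 1)) → B, LinearIndependent k w ∧ ∀ i, w i ∈ V (n + c)

variable {k B : Type} [Field k] [CommRing B] [IsDomain B] [Algebra k B] {D c : ℕ}
  (Fl : Filt k B D c)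

lemma Filt.pow {a : ℕ} {f : B} (hf : f ∈ Fl.V a) (n : ℕ) : f ^ n ∈ Fl.V (n * a) := by
  induction n with
  | zero => simpa using Fl.one
  | succ n ih => rw [pow_succ, Nat.succ_mul]; exact Fl.mul ih hf

lemma Filt.prod {ι : Type} (s : Finset ι) (f : ι → B) {a : ℕ} (hf : ∀ i ∈ s, f i ∈ Fl.V a) :
    ∏ i ∈ s, f i ∈ Fl.V (s.card * a) := by
  classical
  induction s using Finset.induction_on with
  | empty => simpa using Fl.one
  | insert i s hi ih =>
    rw [Finset.prod_insert hi, Finset.card_insert_of_notMem hi, Nat.succ_mul, add_comm]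
    exact Fl.mul (hf i (Finset.mem_insert_self _ _))
      (ih fun j hj => hf j (Finset.mem_insert_of_mem hj))

lemma Filt.card_zeros {n : ℕ} {f : B} (hn : f ∈ Fl.V n) (hf : f ≠ 0) (S : Finset (B →ₐ[k] k))
    (hS : ∀ π ∈ S, π f = 0) : S.card ≤ D * n := by
  have := Fl.fin hf
  refine le_trans ?_ ((card_algHom_le_finrank k (B ⧸ Ideal.span {f}) k).trans (Fl.quot hn hf))
  rw [← Nat.card_eq_finsetCard]
  refine Nat.card_le_card_of_injective (fun π : S => Ideal.Quotient.liftₐ (Ideal.span {f}) π.1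
    (fun a ha => ?_)) ?_
  · obtain ⟨c, rfl⟩ := Ideal.mem_span_singleton'.1 ha
    rw [map_mul, hS π.1 π.2, mul_zero]
  · intro π π' h
    refine Subtype.ext (AlgHom.ext fun x => ?_)
    have := AlgHom.congr_fun h (Ideal.Quotient.mk _ x)
    simpa using this

lemma Filt.val_ge {v : Valuation B ℤᵐ⁰} (h : Good k v) {f : B} (hf : f ≠ 0) {l : ℕ}
    (hl : f ∈ Fl.V l) : exp (-((D * l : ℕ) : ℤ)) ≤ v f := by
  have := Fl.fin hf
  exact h.bound (Fl.quot hl hf)

lemma Filt.exists_rel {v : Valuation B ℤᵐ⁰} (h : Good k v) {ι : Type} [Fintype ι] {n : ℕ}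
    (g : ι → B) (hg : ∀ i, g i ∈ Fl.V n) (hc : D * n + 1 < Fintype.card ι) :
    ∃ a : ι → k, ∑ i, a i • g i = 0 ∧ ∃ i, a i ≠ 0 := by
  classical
  refine Fintype.not_linearIndependent_iff.1 fun hl => ?_
  have : FiniteDimensional k (Submodule.span k (Set.range g)) :=
    FiniteDimensional.span_of_finite k (Set.finite_range _)
  obtain ⟨w, hw, hinj⟩ := h.distinct (D * n + 2) (Submodule.span k (Set.range g))
    (by rw [finrank_span_eq_card hl]; omega)
  have hle : Submodule.span k (Set.range g) ≤ Fl.V n :=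
    Submodule.span_le.2 (by rintro _ ⟨i, rfl⟩; exact hg i)
  have h1 : ∀ i, -log (v (w i)) ∈ Finset.Icc (0 : ℤ) (D * n : ℕ) := by
    intro i
    have a1 := Fl.val_ge h (hw i).2 (hle (hw i).1)
    have a2 := h.le (w i)
    rw [← exp_log (h.ne _ (hw i).2)] at a1 a2
    rw [← exp_zero] at a2
    rw [exp_le_exp] at a1 a2
    rw [Finset.mem_Icc]
    omega
  have h2 := Finset.card_le_card_of_injOn (s := Finset.univ) (fun i => -log (v (w i)))
    (fun i _ => h1 i) (fun i _ j _ e => hinj (by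
      show v (w i) = v (w j)
      rw [← exp_log (h.ne _ (hw i).2), ← exp_log (h.ne _ (hw j).2), neg_injective e]))
  simp only [Finset.card_univ, Fintype.card_fin, Int.card_Icc] at h2
  omega

lemma Filt.sum_ne_zero {v : Valuation B ℤᵐ⁰} (h : Good k v) {ι : Type} [Fintype ι] (u w : ι → B)
    (hw : ∀ i, w i ≠ 0) (hinj : Function.Injective fun i => v (w i)) {l Q : ℕ}
    (hu : ∀ i, u i ∈ Fl.V l) (hQ : D * l < Q) (h0 : ∃ i, u i ≠ 0) :
    ∑ i, u i * w i ^ Q ≠ 0 := by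
  obtain ⟨i0, hi0⟩ := h0
  obtain ⟨i, hi, e⟩ := h.sum_eq (fun i => u i * w i ^ Q) (fun i j hi hj e => by
    have hi' := left_ne_zero_of_mul hi
    have hj' := left_ne_zero_of_mul hj
    apply hinj
    have a1 := Fl.val_ge h hi' (hu i)
    have a2 := Fl.val_ge h hj' (hu j)
    have a3 := h.le (u i)
    have a4 := h.le (u j)
    simp only [map_mul, map_pow] at e
    show v (w i) = v (w j)
    rw [← exp_log (h.ne _ hi')] at a1 a3 e
    rw [← exp_log (h.ne _ hj')] at a2 a4 e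
    rw [← exp_log (h.ne _ (hw i)), ← exp_log (h.ne _ (hw j))] at e ⊢
    rw [← exp_nsmul, ← exp_nsmul, ← exp_add, ← exp_add, exp_inj] at e
    rw [← exp_zero] at a3 a4
    rw [exp_le_exp] at a1 a2 a3 a4
    rw [exp_inj]
    simp only [nsmul_eq_mul] at e
    generalize log (v (w i)) = x at *
    generalize log (v (w j)) = y at *
    generalize D * l = T at *
    have hQ' : (T : ℤ) < Q := by exact_mod_cast hQ
    rcases lt_trichotomy x y with hxy | hxy | hxy
    · nlinarith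
    · exact hxy
    · nlinarith) ⟨i0, mul_ne_zero hi0 (pow_ne_zero _ (hw i0))⟩
  intro hz
  rw [hz, map_zero] at e
  exact h.ne _ hi e.symm

theorem Filt.upper [IsAlgClosed k] (p : ℕ) [Fact p.Prime] [CharP k p] {v : Valuation B ℤᵐ⁰}
    (h : Good k v) {μ Q l n : ℕ} (hQ : D * (l + c) < Q)
    (hB : D * (p ^ μ * (l + c) + (n + c)) + 1 < D * (l + 1) * (D * (n + 1))) (ψ : B → B)
    (hψ : ∀ f ∈ Fl.V (n + c), ψ f ∈ Fl.V (n + c)) (S : Finset (B →ₐ[k] k))
    (hS : ∀ π ∈ S, ∀ f, π (ψ f) = π f ^ (Q * p ^ μ)) : S.card ≤ D * (l + c + Q * (n + c)) := by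
  classical
  have hp : 1 < p := (Fact.out : p.Prime).one_lt
  obtain ⟨P, hP⟩ : ∃ P, P = p ^ μ := ⟨_, rfl⟩
  rw [← hP] at hB hS
  obtain ⟨w0, hw0, hw0'⟩ := Fl.dim n
  obtain ⟨mo, hmo, hmo'⟩ := Fl.dim l
  have : FiniteDimensional k (Submodule.span k (Set.range w0)) :=
    FiniteDimensional.span_of_finite k (Set.finite_range _)
  obtain ⟨w, hw, hinj⟩ := h.distinct (D * (n + 1)) (Submodule.span k (Set.range w0))
    (by rw [finrank_span_eq_card hw0]; simp)
  have hle : Submodule.span k (Set.range w0) ≤ Fl.V (n + c) :=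
    Submodule.span_le.2 (by rintro _ ⟨i, rfl⟩; exact hw0' i)
  obtain ⟨a, ha, x0, hx0⟩ := Fl.exists_rel h (n := P * (l + c) + (n + c))
    (fun x : Fin (D * (l + 1)) × Fin (D * (n + 1)) => mo x.1 ^ P * ψ (w x.2))
    (fun x => Fl.mul (Fl.pow (hmo' x.1) P) (hψ _ (hle (hw x.2).1)))
    (by simpa only [Fintype.card_prod, Fintype.card_fin] using hB)
  have hP0 : 0 < P := hP ▸ pow_pos (by omega) _
  choose a' ha' using fun x => IsAlgClosed.exists_pow_nat_eq (a x) hP0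
  let u : Fin (D * (n + 1)) → B := fun i => ∑ j, a' (j, i) • mo j
  have hu : ∀ i, u i ∈ Fl.V (l + c) := fun i =>
    Submodule.sum_mem _ fun j _ => Submodule.smul_mem _ _ (hmo' j)
  have hu0 : u x0.2 ≠ 0 := by
    intro e
    have := Fintype.linearIndependent_iff.1 hmo _ e x0.1
    apply hx0
    rw [← ha' x0]
    simp only [Prod.mk.eta] at this
    rw [this, zero_pow hP0.ne']
  have hf0 := Fl.sum_ne_zero h u w (fun i => (hw i).2) hinj hu hQ ⟨_, hu0⟩
  refine Fl.card_zeros (Submodule.sum_mem _ fun i _ =>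
    Fl.mul (hu i) (Fl.pow (hle (hw i).1) Q)) hf0 S fun π hπ => ?_
  apply pow_eq_zero_iff hP0.ne' |>.1
  have e := congrArg π ha
  rw [map_sum, map_zero, Fintype.sum_prod_type_right] at e
  rw [← e, map_sum, hP, sum_pow_char_pow]
  refine Finset.sum_congr rfl fun i _ => ?_
  rw [map_mul, mul_pow, map_sum, sum_pow_char_pow, Finset.sum_mul]
  refine Finset.sum_congr rfl fun j _ => ?_
  rw [map_smul, map_smul, map_mul, hS π hπ, ← hP, map_pow, map_pow, smul_eq_mul,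
    smul_eq_mul, mul_pow, ha', ← pow_mul, mul_assoc]

theorem Filt.upper2 [IsAlgClosed k] [CharP k 2] {v : Valuation B ℤᵐ⁰} (h : Good k v)
    {a b m : ℕ} (hD0 : 0 < D) (hD : D ≤ 2 ^ a) (hc : c ≤ 2 ^ b) (hm : 4 * a + 2 * b + 8 ≤ m)
    (ψ : B → B) (hψ : ∀ n, ∀ f ∈ Fl.V n, ψ f ∈ Fl.V n) (S : Finset (B →ₐ[k] k))
    (hS : ∀ π ∈ S, ∀ f, π (ψ f) = π f ^ 2 ^ m) :
    16 * 2 ^ a * S.card ≤ 16 * 2 ^ a * 2 ^ m + 11 * 2 ^ m := by
  obtain ⟨A, hA⟩ : ∃ A, A = 2 ^ a := ⟨_, rfl⟩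
  obtain ⟨C, hC⟩ : ∃ C, C = 2 ^ b := ⟨_, rfl⟩
  have hA0 : 1 ≤ A := hA ▸ Nat.one_le_two_pow
  have hC0 : 1 ≤ C := hC ▸ Nat.one_le_two_pow
  have hP : 2 ^ (2 * a + b + 4) = 16 * A ^ 2 * C := by rw [hA, hC]; ring
  obtain ⟨Q, hQ⟩ : ∃ Q, Q = 2 ^ (m - (2 * a + b + 4)) := ⟨_, rfl⟩
  have hq : 2 ^ m = Q * 2 ^ (2 * a + b + 4) := by rw [hQ, ← pow_add]; congr 1; omega
  have hPQ : 16 * A ^ 2 * C ≤ Q := by
    rw [← hP, hQ]; exact Nat.pow_le_pow_right (by norm_num) (by omega)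
  rw [← hA] at hD ⊢
  rw [← hC] at hc
  obtain ⟨l, hl⟩ : ∃ l, l + 1 = 8 * A * C := ⟨8 * A * C - 1, by
    have : 1 ≤ 8 * A * C := by nlinarith
    omega⟩
  obtain ⟨n, hn⟩ : ∃ n, n = (16 * A ^ 2 * C + 8 * A * C) / D := ⟨_, rfl⟩
  have hn1 : D * n ≤ 16 * A ^ 2 * C + 8 * A * C := hn ▸ Nat.mul_div_le _ D
  have hn2 : 16 * A ^ 2 * C + 8 * A * C < D * (n + 1) := hn ▸ Nat.lt_mul_div_succ _ hD0
  have hn3 : n ≤ 16 * A ^ 2 * C + 8 * A * C := hn ▸ Nat.div_le_self _ _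
  have hAC : A * C ≤ A ^ 2 * C := Nat.mul_le_mul_right _ (by nlinarith)
  have hCA : C ≤ A * C := Nat.le_mul_of_pos_left _ hA0
  have hAA : A ≤ A * C := Nat.le_mul_of_pos_right _ hC0
  have hlc : l + c < 9 * (A * C) := by nlinarith
  have h1 : D * (l + c) < Q := by
    have : D * (l + c) ≤ A * (l + c) := Nat.mul_le_mul_right _ hD
    have : A * (l + c) < A * (9 * (A * C)) := Nat.mul_lt_mul_of_pos_left hlc hA0
    nlinarith
  have h2 := Fl.upper 2 h (μ := 2 * a + b + 4) (Q := Q) (l := l) (n := n) h1 (by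
    rw [hP, mul_assoc D]
    obtain ⟨P, hP'⟩ : ∃ P, P = 16 * A ^ 2 * C := ⟨_, rfl⟩
    rw [← hP'] at hn2 hn3 ⊢
    have hP1 : 16 * (A * C) ≤ P := by nlinarith
    have b1 : (l + 1) * (P + 8 * A * C + 1) ≤ (l + 1) * (D * (n + 1)) :=
      Nat.mul_le_mul_left _ hn2
    have b2 : (l + 1) * (8 * A * C) = 4 * (P * C) := by rw [hl, hP']; ring
    have b3 : P * c ≤ P * C := Nat.mul_le_mul_left _ hc
    have b4 : P ≤ P * C := Nat.le_mul_of_pos_right _ hC0
    have b5 : P * (l + c) + (n + c) + 2 ≤ (l + 1) * (D * (n + 1)) := by nlinarith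
    have b6 := Nat.mul_le_mul_left D b5
    nlinarith) ψ (hψ _) S (by rw [← hq]; exact hS)
  have h3 : D * c ≤ A * C := Nat.mul_le_mul hD hc
  have h4 : D * (n + c) + 1 ≤ 16 * A ^ 2 * C + 11 * (A * C) := by nlinarith
  have h5 : S.card ≤ Q * (16 * A ^ 2 * C + 11 * (A * C)) := by
    have := Nat.mul_le_mul_left Q h4
    nlinarith
  rw [hq, hP]
  calc 16 * A * S.card ≤ 16 * A * (Q * (16 * A ^ 2 * C + 11 * (A * C))) :=
        Nat.mul_le_mul_left _ h5
    _ = _ := by ring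

variable [Algebra k[X] B] [IsScalarTower k k[X] B]

theorem Filt.lower {D' : ℕ} (b0 : Basis (Fin D') k[X] B) (G : Type) [Group G] [Finite G]
    [MulSemiringAction G B] [SMulCommClass G k[X] B] [Algebra.IsInvariant k[X] B G]
    [IsAlgClosed k] [IsDedekindDomain B] [CharP k 2] {a b m : ℕ} (hD0 : 0 < D) (hD : D ≤ 2 ^ a)
    (hG : Nat.card G ≤ 2 ^ a) (hc : c ≤ 2 ^ b) (hm : 4 * a + 2 * b + 8 ≤ m) (φ : B →+* B)
    (hφ : ∀ r : k[X], φ (algebraMap k[X] B r) = algebraMap k[X] B (r.map (iterateFrobenius k 2 m)))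
    (hV : ∀ (σ : G) n, ∀ f ∈ Fl.V n, φ (σ • f) ∈ Fl.V n) (hX : algebraMap k[X] B X ∈ Fl.V 1) :
    ∃ π : B →ₐ[k] k, π (algebraMap k[X] B X) ≠ 0 ∧ ∀ f, π (φ f) = π f ^ 2 ^ m := by
  classical
  have := Fintype.ofFinite G
  choose π0 hπ0 using exists_point b0
  have hg : algebraMap k[X] B X ≠ 0 := (map_ne_zero_iff _ (inj_poly b0)).2 X_ne_zero
  obtain ⟨v, hv⟩ := exists_good k (π0 0) (by
    intro h
    have h1 : algebraMap k[X] B X ∈ RingHom.ker (π0 0) := hπ0 0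
    rw [h, Ideal.mem_bot] at h1
    exact hg h1)
  rw [Nat.card_eq_fintype_card] at hG
  obtain ⟨n, hn⟩ : ∃ n, Fintype.card G = n + 1 :=
    Nat.exists_eq_succ_of_ne_zero Fintype.card_ne_zero
  by_contra hcon
  push Not at hcon
  obtain ⟨S, hS, hSx⟩ := exists_fixed (k := k) 2 (n := m) (by omega)
  choose! γ hγ using exists_twist (G := G) 2 m φ hφ
  choose r hr using fun π : B →ₐ[k] k => trans_point G (π0 (π (algebraMap k[X] B X))) π (hπ0 _)
  have htw : ∀ x (h : G), twist (π0 x) h (algebraMap k[X] B X) = x := fun x h => by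
    rw [twist_apply, smul_algebraMap, hπ0]
  let J : k × G → G := fun x => γ (twist (π0 x.1) x.2) * (r (twist (π0 x.1) x.2))⁻¹ * x.2
  have hJ : ∀ x : k × G, x.1 ∈ S → ∀ f,
      twist (π0 x.1) x.2 (φ (J x • f)) = twist (π0 x.1) x.2 f ^ 2 ^ m := by
    intro x hx f
    simp only [J]
    rw [mul_assoc, mul_smul, hγ _ (by rw [htw]; exact hSx _ hx), hr, htw, mul_smul,
      smul_inv_smul, twist_apply]
  have hfib : ∀ σ : G, ∃ T : Finset (B →ₐ[k] k), ((S ×ˢ Finset.univ).filter (J · = σ)).card =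
      T.card ∧ ∀ π ∈ T, ∀ f, π (φ (σ • f)) = π f ^ 2 ^ m := by
    intro σ
    refine ⟨((S ×ˢ Finset.univ).filter (J · = σ)).image fun x => twist (π0 x.1) x.2, ?_, ?_⟩
    · refine (Finset.card_image_of_injOn fun x hx y hy hxy => ?_).symm
      have h1 : x.1 = y.1 := by rw [← htw x.1 x.2, ← htw y.1 y.2]; exact AlgHom.congr_fun hxy _
      have h2 := (Finset.mem_filter.1 hx).2.trans (Finset.mem_filter.1 hy).2.symm
      simp only [J] at h2
      have h3 : twist (π0 x.1) x.2 = twist (π0 y.1) y.2 := hxy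
      rw [h3] at h2
      exact Prod.ext h1 (mul_left_cancel h2)
    · intro π hπ f
      obtain ⟨x, hx, rfl⟩ := Finset.mem_image.1 hπ
      obtain ⟨h1, rfl⟩ := Finset.mem_filter.1 hx
      exact hJ x (Finset.mem_product.1 h1).1 f
  have hsum := Finset.card_eq_sum_card_fiberwise (s := S ×ˢ Finset.univ) (t := Finset.univ)
    (f := J) (fun _ _ => Finset.mem_univ _)
  rw [Finset.card_product, hS, Finset.card_univ, hn,
    ← Finset.add_sum_erase _ _ (Finset.mem_univ (1 : G))] at hsum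
  have h1 : ((S ×ˢ Finset.univ).filter (J · = 1)).card ≤ D * 1 := by
    obtain ⟨T, hT, hT'⟩ := hfib 1
    rw [hT]
    refine Fl.card_zeros hX hg T fun π hπ => ?_
    by_contra h0
    obtain ⟨f, hf⟩ := hcon π h0
    exact hf (by simpa using hT' π hπ f)
  have h2 : 16 * 2 ^ a * ∑ σ ∈ Finset.univ.erase (1 : G),
      ((S ×ˢ Finset.univ).filter (J · = σ)).card ≤ n * (16 * 2 ^ a * 2 ^ m + 11 * 2 ^ m) := by
    rw [Finset.mul_sum]
    refine (Finset.sum_le_card_nsmul _ _ (16 * 2 ^ a * 2 ^ m + 11 * 2 ^ m) fun σ _ => ?_).trans ?_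
    · obtain ⟨T, hT, hT'⟩ := hfib σ
      rw [hT]
      exact Fl.upper2 hv hD0 hD hc hm (fun f => φ (σ • f)) (hV σ) T hT'
    · rw [Finset.card_erase_of_mem (Finset.mem_univ _), Finset.card_univ, hn]
      simp
  have h3 : 16 * 2 ^ a ≤ 2 ^ m := by
    rw [show 16 * 2 ^ a = 2 ^ (a + 4) by ring]
    exact Nat.pow_le_pow_right (by norm_num) (by omega)
  have h4 : 0 < 2 ^ a := by positivity
  rw [hn] at hG
  generalize 2 ^ a = A at *
  generalize 2 ^ m = q at *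
  generalize ∑ σ ∈ Finset.univ.erase (1 : G), ((S ×ˢ Finset.univ).filter (J · = σ)).card = R at *
  generalize ((S ×ˢ Finset.univ).filter (J · = 1)).card = N at *
  have h5 : 16 * A * (q * (n + 1)) = 16 * A * N + 16 * A * R := by rw [hsum]; ring
  have h6 : 16 * A * N ≤ q * A := Nat.mul_le_mul h3 (by omega)
  have h7 : n * q ≤ A * q := Nat.mul_le_mul_right _ (by omega)
  have h8 : 0 < A * q := Nat.mul_pos h4 (by omega)
  nlinarith

end Pool.Agent.Lib.MP_587b89_lc.Lin
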