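import Pool.Agent.Lib.MP_587b89_lc.Lin.Vs

/-!
Group theory: transvections, products of general linear groups, Artin-Schreier duality.
-/

set_option autoImplicit false
open Module

namespace Pool.Agent.Lib.MP_587b89_lc.Lin

lemma two_v {V : Type} [AddCommGroup V] [Module (ZMod 2) V] (x : V) : x + x = 0 := by
  rw [← two_smul (ZMod 2), show (2 : ZMod 2) = 0 from rfl, zero_smul]

theorem ribet {G ι : Type} [Group G] [Fintype ι] {V : ι → Type} [∀ e, AddCommGroup (V e)]
    [∀ e, Module (ZMod 2) (V e)] [∀ e, Module.Finite (ZMod 2) (V e)]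
    (h3 : ∀ e, 3 ≤ finrank (ZMod 2) (V e)) (ρ : ∀ e, G →* Module.End (ZMod 2) (V e))
    (hT : ∀ e (u v : V e), u ≠ 0 → v ≠ 0 → ∃ g, ρ e g u = v)
    (hP : ∀ e e', ∃ v : V e, v ≠ 0 ∧ ∀ l : Module.Dual (ZMod 2) (V e), l v = 0 →
      ∃ g, (∀ u, ρ e g u = u + l u • v) ∧ (e' ≠ e → ∀ u, ρ e' g u = u))
    (h : ∀ e, Module.End (ZMod 2) (V e)) (hi : ∀ e, Function.Injective (h e)) :
    ∃ g, ∀ e u, ρ e g u = h e u := by
  classical
  have hm : ∀ e g g' u, ρ e (g * g') u = ρ e g (ρ e g' u) := fun e g g' u => by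
    rw [map_mul]; rfl
  have hr : ∀ e g u, ρ e g (ρ e g⁻¹ u) = u := fun e g u => by
    rw [← hm, mul_inv_cancel, map_one]; rfl
  have hl : ∀ e g u, ρ e g⁻¹ (ρ e g u) = u := fun e g u => by
    rw [← hm, inv_mul_cancel, map_one]; rfl
  have hA : ∀ e e' (v : V e), v ≠ 0 → ∀ l : Module.Dual (ZMod 2) (V e), l v = 0 →
      ∃ g, (∀ u, ρ e g u = u + l u • v) ∧ (e' ≠ e → ∀ u, ρ e' g u = u) := fun e e' v hv l hlv => by
    obtain ⟨v0, h0, h1⟩ := hP e e'
    obtain ⟨g0, hg0⟩ := hT e v0 v h0 hv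
    obtain ⟨g1, h2, h4⟩ := h1 (l.comp (ρ e g0)) (by rw [LinearMap.comp_apply, hg0, hlv])
    refine ⟨g0 * g1 * g0⁻¹, fun u => ?_, fun hne u => ?_⟩
    · rw [hm, hm, h2, map_add, map_smul, LinearMap.comp_apply, hr, hg0]
    · rw [hm, hm, h4 hne, hr]
  have hinv : ∀ e g (v : V e) (l : Module.Dual (ZMod 2) (V e)), l v = 0 →
      (∀ u, ρ e g u = u + l u • v) → ∀ u, ρ e g⁻¹ u = u + l u • v := fun e g v l hlv hg u => by
    conv_rhs => rw [← hl e g (u + l u • v), hg, map_add l, map_smul l, hlv, smul_zero, add_zero,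
      add_assoc, two_v, add_zero]
  have hB : ∀ e (D : Finset ι) (v : V e), v ≠ 0 → ∀ l : Module.Dual (ZMod 2) (V e), l v = 0 →
      ∃ g, (∀ u, ρ e g u = u + l u • v) ∧ ∀ e' ∈ D, e' ≠ e → ∀ u, ρ e' g u = u := fun e D => by
    induction D using Finset.induction_on with
    | empty =>
      intro v hv l hlv
      obtain ⟨g, hg, -⟩ := hA e e v hv l hlv
      exact ⟨g, hg, by simp⟩
    | insert e' D _ ih =>
      intro v hv l hlv
      have h1 : ¬ LinearMap.ker l ≤ Submodule.span (ZMod 2) {v} := fun h1 => by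
        have h2 := Submodule.finrank_mono h1
        have h4 := LinearMap.finrank_range_add_finrank_ker l
        have h5 := (LinearMap.range l).finrank_le
        rw [finrank_span_singleton hv] at h2
        rw [finrank_self] at h5
        have := h3 e
        omega
      obtain ⟨w, hw, hw'⟩ := SetLike.not_le_iff_exists.1 h1
      rw [LinearMap.mem_ker] at hw
      obtain ⟨μ, hμ, hμ'⟩ := Submodule.exists_le_ker_of_notMem hw'
      have hμv : μ v = 0 := hμ' (Submodule.mem_span_singleton_self v)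
      have hμw : μ w = 1 := (z2 _).resolve_left hμ
      obtain ⟨g1, a1, b1⟩ := ih v hv μ hμv
      obtain ⟨g2, a2, b2⟩ := hA e e' w (fun h => hw' (h ▸ Submodule.zero_mem _)) l hw
      refine ⟨g1 * g2 * g1⁻¹ * g2⁻¹, fun u => ?_, fun e'' he hne u => ?_⟩
      · rw [hm, hm, hm, hinv e g2 w l hw a2, hinv e g1 v μ hμv a1, a2, a1]
        simp only [map_add, map_smul, hlv, hw, hμv, hμw, add_zero, smul_eq_mul, mul_one,
          mul_zero, add_smul]
        have e1 := two_v (l u • w)
        have e2 := two_v (l u • v)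
        have e3 := two_v (μ u • v)
        linear_combination (norm := abel1) e1 + e2 + e3
      · rw [hm, hm, hm]
        rcases Finset.mem_insert.1 he with rfl | he
        · rw [b2 hne, hr, ← b2 hne (ρ e'' g2⁻¹ u), hr]
        · rw [b1 e'' he hne, ← b1 e'' he hne (ρ e'' g1⁻¹ _), hr, hr]
  have hC : ∀ e, ∃ g, (∀ u, ρ e g u = h e u) ∧ ∀ e', e' ≠ e → ∀ u, ρ e' g u = u := fun e => by
    let b := Module.finBasis (ZMod 2) (V e)
    have := Matrix.diagonal_transvection_induction_of_det_ne_zero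
      (fun M => ∃ g, (∀ u, ρ e g u = Matrix.toLin b b M u) ∧ ∀ e', e' ≠ e → ∀ u, ρ e' g u = u)
      (LinearMap.toMatrix b b (h e)) (by
        rw [LinearMap.det_toMatrix]
        exact ((LinearMap.isUnit_iff_isUnit_det _).1
          ((LinearMap.isUnit_iff_ker_eq_bot _).2 (LinearMap.ker_eq_bot.2 (hi e)))).ne_zero)
      (fun D hD => by
        have h1 : D = fun _ => 1 := funext fun i => (z2 _).resolve_left fun h0 => hD (by
          rw [Matrix.det_diagonal]; exact Finset.prod_eq_zero (Finset.mem_univ i) h0)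
        subst h1
        exact ⟨1, fun u => by simp, fun e' _ u => by simp⟩)
      (fun t => by
        obtain ⟨g, a1, b1⟩ := hB e Finset.univ (b t.i) (b.ne_zero _) (t.c • b.coord t.j) (by
          simp [t.hij])
        refine ⟨g, fun u => ?_, fun e' he => b1 e' (Finset.mem_univ _) he⟩
        rw [a1, Matrix.TransvectionStruct.toMatrix, Matrix.transvection, map_add, Matrix.toLin_one,
          LinearMap.add_apply, LinearMap.id_apply, Matrix.toLin_apply]
        congr 1
        rw [Finset.sum_eq_single t.i (fun i _ hi => by simp [Matrix.single_mulVec, hi]) (by simp)]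
        simp [Matrix.single_mulVec])
      fun A B _ _ ⟨g1, a1, b1⟩ ⟨g2, a2, b2⟩ => ⟨g1 * g2, fun u => by
        rw [hm, a2, a1, Matrix.toLin_mul b b b, LinearMap.comp_apply], fun e' he u => by
        rw [hm, b2 e' he, b1 e' he]⟩
    simpa only [Matrix.toLin_toMatrix] using this
  have hD : ∀ D : Finset ι, ∃ g, (∀ e ∈ D, ∀ u, ρ e g u = h e u) ∧
      ∀ e ∉ D, ∀ u, ρ e g u = u := fun D => by
    induction D using Finset.induction_on with
    | empty => exact ⟨1, by simp, by simp⟩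
    | insert e D he ih =>
      obtain ⟨g1, a1, b1⟩ := ih
      obtain ⟨g2, a2, b2⟩ := hC e
      refine ⟨g1 * g2, fun e' he' u => ?_, fun e' he' u => ?_⟩
      · rcases Finset.mem_insert.1 he' with rfl | he'
        · rw [hm, b1 _ he, a2]
        · rw [hm, b2 e' (fun h => he (h ▸ he')), a1 e' he']
      · rw [Finset.mem_insert, not_or] at he'
        rw [hm, b2 e' he'.1, b1 e' he'.2]
  obtain ⟨g, hg, -⟩ := hD Finset.univ
  exact ⟨g, fun e => hg e (Finset.mem_univ e)⟩

theorem card_le {G ι : Type} [Group G] [Fintype ι] {V : ι → Type} [∀ e, AddCommGroup (V e)]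
    [∀ e, Module (ZMod 2) (V e)] [∀ e, Module.Finite (ZMod 2) (V e)] {s : ℕ} (hs : 1 ≤ s)
    (hV : ∀ e, finrank (ZMod 2) (V e) = s) (ρ : ∀ e, G →* Module.End (ZMod 2) (V e))
    (hρ : ∀ g, (∀ e u, ρ e g u = u) → g = 1) :
    Nat.card G ≤ 2 ^ ((s ^ 2 - 1) * Fintype.card ι) := by
  have : ∀ e, Finite (V e) := fun e => Module.finite_of_finite (ZMod 2)
  have hl : ∀ e g u, ρ e g⁻¹ (ρ e g u) = u := fun e g u => by
    rw [← Module.End.mul_apply, ← map_mul, inv_mul_cancel, map_one]; rfl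
  let b := fun e => Module.finBasisOfFinrankEq (ZMod 2) (V e) (hV e)
  let f : G → ∀ e, {x : Fin s → V e // LinearIndependent (ZMod 2) x} := fun g e =>
    ⟨ρ e g ∘ b e, (b e).linearIndependent.map' _
      (LinearMap.ker_eq_bot.2 (Function.LeftInverse.injective (hl e g)))⟩
  have hf : Function.Injective f := fun g g' h => by
    have h1 : ∀ e, ρ e g = ρ e g' := fun e => (b e).ext fun i =>
      congrFun (congrArg Subtype.val (congrFun h e)) i
    refine (inv_mul_eq_one.1 (hρ _ fun e u => ?_))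
    rw [map_mul, Module.End.mul_apply, ← h1, hl]
  refine (Nat.card_le_card_of_injective f hf).trans ?_
  rw [Nat.card_pi, pow_mul, ← Finset.card_univ]
  refine Finset.prod_le_pow_card _ _ _ fun e _ => ?_
  rw [card_linearIndependent (hV e).ge, hV, ZMod.card]
  obtain ⟨r, rfl⟩ : ∃ r, s = r + 1 := ⟨s - 1, by omega⟩
  rw [Fin.prod_univ_castSucc, show (r + 1) ^ 2 - 1 = (r + 1) * r + r by
    rw [Nat.sub_eq_iff_eq_add (Nat.one_le_pow _ _ hs)]; ring, pow_add 2 ((r + 1) * r), pow_mul]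
  refine Nat.mul_le_mul ((Finset.prod_le_pow_card _ _ (2 ^ (r + 1)) fun i _ =>
    Nat.sub_le _ _).trans (by simp)) ?_
  rw [Fin.val_last, pow_succ]
  omega

theorem as_dual {K U W : Type} [Field K] [CharP K 2] [Field U] [Algebra K U] [Normal K U]
    [AddCommGroup W] [Module (ZMod 2) W] [Module.Finite (ZMod 2) W] (ζ : W →+ U)
    (hζ : ∀ x, ζ x ^ 2 + ζ x ∈ (algebraMap K U).range) (l : Module.Dual (ZMod 2) W)
    (hl : ∀ x, ζ x ∈ (algebraMap K U).range → l x = 0) :
    ∃ g : U ≃ₐ[K] U, ∀ x, g (ζ x) = ζ x + ((l x).val : U) := by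
  have : CharP U 2 := charP_of_injective_algebraMap (algebraMap K U).injective 2
  let _ : Module (ZMod 2) U := (ZMod.algebra _ 2).toModule
  have h2 : (2 : U) = 0 := CharTwo.two_eq_zero
  have hc : ∀ c : ZMod 2, (c.val : U) = ZMod.castHom (dvd_refl 2) U c := fun c => by
    rw [ZMod.castHom_apply, ZMod.cast_eq_val]
  let S : Submodule (ZMod 2) (Module.Dual (ZMod 2) W) :=
    { carrier := {l | ∃ g : U ≃ₐ[K] U, ∀ x, g (ζ x) = ζ x + ((l x).val : U)}
      add_mem' := fun {l1 l2} ⟨g1, a1⟩ ⟨g2, a2⟩ => ⟨g1 * g2, fun x => by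
        rw [AlgEquiv.mul_apply, a2, map_add, a1, map_natCast, LinearMap.add_apply, hc, hc, hc,
          map_add, add_assoc]⟩
      zero_mem' := ⟨1, fun x => by simp⟩
      smul_mem' := fun c l h => by
        rcases z2 c with rfl | rfl
        · exact ⟨1, fun x => by simp⟩
        · rwa [one_smul] }
  show l ∈ S
  rw [← Subspace.dualCoannihilator_dualAnnihilator_eq (W := S), Submodule.mem_dualAnnihilator]
  refine fun x hx => hl x (by_contra fun h0 => ?_)
  rw [Submodule.mem_dualCoannihilator] at hx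
  obtain ⟨a, ha⟩ := hζ x
  have hint : IsIntegral K (ζ x) := Algebra.IsIntegral.isIntegral _
  have hp : (Polynomial.X ^ 2 + Polynomial.X - Polynomial.C a : Polynomial K) = minpoly K (ζ x) :=
    Polynomial.eq_of_monic_of_dvd_of_natDegree_le (minpoly.monic hint) (by monicity!)
      (minpoly.dvd _ _ (by simp [ha])) (le_trans (by compute_degree)
        ((minpoly.two_le_natDegree_iff hint).2 h0))
  obtain ⟨g, hg⟩ := minpoly.exists_algEquiv_of_root' (x := ζ x + 1) hint.isAlgebraic (by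
    rw [← hp]
    simp only [map_sub, map_add, map_pow, Polynomial.aeval_X, Polynomial.aeval_C, ha]
    linear_combination (ζ x + 1) * h2)
  obtain ⟨μ, hμ⟩ := exists_dual (AddMonoidHom.mk' (fun y => g (ζ y) - ζ y)
    fun y y' => by rw [map_add, map_add]; ring) fun y => by
      obtain ⟨a, ha⟩ := hζ y
      have h3 : g (ζ y ^ 2 + ζ y) = ζ y ^ 2 + ζ y := by rw [← ha, g.commutes]
      rw [map_add, map_pow] at h3
      have h4 : (g (ζ y) - ζ y) * (g (ζ y) - ζ y - 1) = 0 := by
        linear_combination h3 + (ζ y ^ 2 + ζ y - g (ζ y) - g (ζ y) * ζ y) * h2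
      exact (mul_eq_zero.1 h4).imp id sub_eq_zero.1
  have h5 := hμ x
  rw [hx μ ⟨g, fun y => by rw [hμ]; exact (add_sub_cancel _ _).symm⟩] at h5
  change _ = g (ζ x) - ζ x at h5
  rw [hg] at h5
  simp at h5

end Pool.Agent.Lib.MP_587b89_lc.Lin
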