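import Pool.Agent.Lib.MP_587b89_lc.Lin.Filt

/-!
The filtration by the poles at infinity on a Galois extension of the rational function field.
-/

set_option autoImplicit false
set_option linter.unusedSectionVars false
set_option linter.overlappingInstances false
open Polynomial Module

namespace Pool.Agent.Lib.MP_587b89_lc.Lin

variable (k : Type) [Field k] {L : Type} [Field L] [Algebra k[X] L] [Algebra k L]
  [IsScalarTower k k[X] L]

/-- functions regular in the finite part with poles of order at most `n` at infinity -/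
def Sm (n : ℕ) (x : L) : Prop :=
  IsIntegral k[X] x ∧
    IsIntegral (Algebra.adjoin k {(algebraMap k[X] L X)⁻¹}) (x * (algebraMap k[X] L X)⁻¹ ^ n)

variable {k}

lemma int_of_mem {A : Subalgebra k L} {x : L} (hx : x ∈ A) : IsIntegral A x :=
  isIntegral_algebraMap (R := A) (A := L) (x := ⟨x, hx⟩)

lemma inv_mem : (algebraMap k[X] L X)⁻¹ ∈ Algebra.adjoin k {(algebraMap k[X] L X)⁻¹} :=
  Algebra.self_mem_adjoin_singleton _ _

lemma Sm.mono {a b : ℕ} (h : a ≤ b) {x : L} (hx : Sm k a x) : Sm k b x := by
  obtain ⟨d, rfl⟩ := Nat.exists_eq_add_of_le h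
  refine ⟨hx.1, ?_⟩
  rw [pow_add, ← mul_assoc]
  exact hx.2.mul (int_of_mem (pow_mem inv_mem _))

lemma Sm.mul {a b : ℕ} {x y : L} (hx : Sm k a x) (hy : Sm k b y) : Sm k (a + b) (x * y) := by
  refine ⟨hx.1.mul hy.1, ?_⟩
  rw [pow_add, mul_mul_mul_comm]
  exact hx.2.mul hy.2

lemma Sm.add {a : ℕ} {x y : L} (hx : Sm k a x) (hy : Sm k a y) : Sm k a (x + y) := by
  refine ⟨hx.1.add hy.1, ?_⟩
  rw [add_mul]
  exact hx.2.add hy.2

lemma sm_const (c : k) : Sm k 0 (algebraMap k L c) := by
  refine ⟨?_, ?_⟩
  · rw [IsScalarTower.algebraMap_apply k k[X] L]; exact isIntegral_algebraMap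
  · rw [pow_zero, mul_one]; exact int_of_mem (Subalgebra.algebraMap_mem _ c)

lemma sm_one : Sm k 0 (1 : L) := by simpa using sm_const (L := L) (1 : k)

lemma sm_zero (n : ℕ) : Sm k n (0 : L) := by
  simpa using (sm_const (L := L) (0 : k)).mono (Nat.zero_le n)

lemma Sm.pow {a : ℕ} {x : L} (hx : Sm k a x) (n : ℕ) : Sm k (n * a) (x ^ n) := by
  induction n with
  | zero => simpa using sm_one
  | succ n ih => rw [pow_succ, Nat.succ_mul]; exact ih.mul hx

lemma Sm.prod {ι : Type} (s : Finset ι) (f : ι → L) {a : ℕ} (hf : ∀ i ∈ s, Sm k a (f i)) :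
    Sm k (s.card * a) (∏ i ∈ s, f i) := by
  classical
  induction s using Finset.induction_on with
  | empty => simpa using sm_one
  | insert i s hi ih =>
    rw [Finset.prod_insert hi, Finset.card_insert_of_notMem hi, Nat.succ_mul, add_comm]
    exact (hf i (Finset.mem_insert_self _ _)).mul
      (ih fun j hj => hf j (Finset.mem_insert_of_mem hj))

lemma Sm.sum {ι : Type} (s : Finset ι) (f : ι → L) {a : ℕ} (hf : ∀ i ∈ s, Sm k a (f i)) :
    Sm k a (∑ i ∈ s, f i) :=
  Finset.sum_induction f (Sm k a) (fun _ _ => Sm.add) (sm_zero a) hf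

lemma sm_X : Sm k 1 (algebraMap k[X] L X) := by
  refine ⟨isIntegral_algebraMap, ?_⟩
  rw [pow_one]
  rcases eq_or_ne (algebraMap k[X] L X) 0 with h | h
  · rw [h, zero_mul]; exact isIntegral_zero
  · rw [mul_inv_cancel₀ h]; exact isIntegral_one

lemma Sm.map (τ : k →+* k) (Ψ : L →+* L)
    (hΨ : ∀ r : k[X], Ψ (algebraMap k[X] L r) = algebraMap k[X] L (r.map τ)) {n : ℕ} {x : L}
    (hx : Sm k n x) : Sm k n (Ψ x) := by
  have hy : Ψ (algebraMap k[X] L X) = algebraMap k[X] L X := by rw [hΨ, map_X]
  refine ⟨IsIntegral.map_of_comp_eq (mapRingHom τ) Ψ (RingHom.ext fun r => (hΨ r).symm) hx.1, ?_⟩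
  have hA : ∀ z ∈ Algebra.adjoin k {(algebraMap k[X] L X)⁻¹},
      Ψ z ∈ Algebra.adjoin k {(algebraMap k[X] L X)⁻¹} := by
    intro z hz
    induction hz using Algebra.adjoin_induction with
    | mem z hz => rw [Set.mem_singleton_iff.1 hz, map_inv₀, hy]; exact inv_mem
    | algebraMap c =>
      rw [IsScalarTower.algebraMap_apply k k[X] L, hΨ, algebraMap_eq, map_C,
        ← algebraMap_eq, ← IsScalarTower.algebraMap_apply]
      exact Subalgebra.algebraMap_mem _ _
    | add y z _ _ h1 h2 => rw [map_add]; exact add_mem h1 h2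
    | mul y z _ _ h1 h2 => rw [map_mul]; exact mul_mem h1 h2
  have := IsIntegral.map_of_comp_eq (Ψ.restrict _ _ hA) Ψ (RingHom.ext fun _ => rfl) hx.2
  rwa [map_mul, map_pow, map_inv₀, hy] at this

lemma int_of_monic {R : Type} [CommRing R] [Nontrivial R] [Algebra R L] {P : R[X]} (hP : P.Monic)
    (hd : 1 ≤ P.natDegree) {x : L} {r : R} (h : aeval x P = algebraMap R L r) :
    IsIntegral R x :=
  ⟨P - C r, hP.sub_of_left (degree_C_le.trans_lt (natDegree_pos_iff_degree_pos.1 hd)), by
    rw [← aeval_def, map_sub, h, aeval_C, sub_self]⟩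

lemma sm_root {P : k[X]} (hd : 1 ≤ P.natDegree) {c : k} {x : L}
    (h : aeval x P = algebraMap k L c * algebraMap k[X] L X) : Sm k 1 x := by
  have hP0 : P ≠ 0 := by rintro rfl; simp at hd
  have hl := leadingCoeff_ne_zero.2 hP0
  obtain ⟨P', hP'⟩ : ∃ P', P' = P * C P.leadingCoeff⁻¹ := ⟨_, rfl⟩
  have hm : P'.Monic := hP' ▸ monic_mul_leadingCoeff_inv hP0
  have hd' : 1 ≤ P'.natDegree := by rw [hP', natDegree_mul_leadingCoeff_inv _ hP0]; exact hd
  have h' : aeval x P' = algebraMap k L (c * P.leadingCoeff⁻¹) * algebraMap k[X] L X := by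
    rw [hP', map_mul, h, aeval_C, map_mul]; ring
  generalize c * P.leadingCoeff⁻¹ = c' at h'
  refine ⟨int_of_monic (hm.map (algebraMap k k[X])) (by rwa [hm.natDegree_map]) (r := C c' * X)
    (by rw [aeval_map_algebraMap, h', map_mul, IsScalarTower.algebraMap_apply k k[X] L]; rfl), ?_⟩
  rcases eq_or_ne (algebraMap k[X] L X) 0 with h0 | h0
  · rw [h0, inv_zero, pow_one, mul_zero]; exact isIntegral_zero
  obtain ⟨N, hN⟩ := Nat.exists_eq_add_of_le' hd'
  let T : Algebra.adjoin k {(algebraMap k[X] L X)⁻¹} := ⟨_, inv_mem⟩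
  have hm2 := hm.map (algebraMap k (Algebra.adjoin k {(algebraMap k[X] L X)⁻¹}))
  refine int_of_monic ((monic_scaleRoots_iff T).2 hm2)
    (by rwa [natDegree_scaleRoots, hm.natDegree_map]) (r := algebraMap k _ c' * T ^ N) ?_
  rw [pow_one, mul_comm x, aeval_def]
  refine (scaleRoots_eval₂_mul _ x T).trans ?_
  rw [← aeval_def, aeval_map_algebraMap, h', hm.natDegree_map, hN, map_mul, map_pow,
    ← IsScalarTower.algebraMap_apply]
  show (algebraMap k[X] L X)⁻¹ ^ (N + 1) * _ = _ * (algebraMap k[X] L X)⁻¹ ^ N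
  rw [pow_succ]
  field_simp

lemma deg_le (hinj : Function.Injective (algebraMap k[X] L)) {r : k[X]} {N : ℕ}
    (h : Sm k N (algebraMap k[X] L r)) : r.natDegree ≤ N := by
  by_contra hlt
  rw [not_le] at hlt
  obtain ⟨d, hd⟩ : ∃ d, r.natDegree = d + 1 := ⟨r.natDegree - 1, by omega⟩
  have h0 : algebraMap k[X] L X ≠ 0 := (map_ne_zero_iff _ hinj).2 X_ne_zero
  have hr : algebraMap k[X] L r = aeval (algebraMap k[X] L X) r := by
    rw [aeval_algebraMap_apply, aeval_X_left_apply]
  have h1 := (h.mono (show N ≤ d by omega)).2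
  rw [hr, aeval_eq_sum_range, hd, Finset.sum_range_succ, add_mul] at h1
  have h2 : IsIntegral (Algebra.adjoin k {(algebraMap k[X] L X)⁻¹})
      ((∑ i ∈ Finset.range (d + 1), r.coeff i • algebraMap k[X] L X ^ i) *
        (algebraMap k[X] L X)⁻¹ ^ d) := by
    refine int_of_mem ?_
    rw [Finset.sum_mul]
    refine Subalgebra.sum_mem _ fun i hi => ?_
    obtain ⟨j, rfl⟩ := Nat.exists_eq_add_of_le (Nat.lt_succ_iff.1 (Finset.mem_range.1 hi))
    rw [smul_mul_assoc, pow_add, ← mul_assoc, ← mul_pow, mul_inv_cancel₀ h0, one_pow, one_mul]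
    exact Subalgebra.smul_mem _ (pow_mem inv_mem _) _
  have hl : r.coeff (d + 1) ≠ 0 := by
    rw [← hd]; exact leadingCoeff_ne_zero.2 (by rintro rfl; simp at hd)
  have h3 := (int_of_mem (Subalgebra.algebraMap_mem _ (r.coeff (d + 1))⁻¹)).mul (h1.sub h2)
  rw [add_sub_cancel_left, smul_mul_assoc, pow_succ', mul_assoc, ← mul_pow, mul_inv_cancel₀ h0,
    one_pow, mul_one, Algebra.smul_def, ← mul_assoc, ← map_mul, inv_mul_cancel₀ hl, map_one,
    one_mul] at h3
  obtain ⟨p, hp, hp'⟩ := isIntegral_of_isIntegral_adjoin_of_mul_eq_one _ _ (inv_mul_cancel₀ h0) h3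
  rw [← aeval_def, aeval_algebraMap_apply, aeval_X_left_apply, map_eq_zero_iff _ hinj] at hp'
  exact hp.ne_zero hp'

variable [Algebra (FractionRing k[X]) L] [IsScalarTower k[X] (FractionRing k[X]) L]

lemma inj_L : Function.Injective (algebraMap k[X] L) := by
  rw [IsScalarTower.algebraMap_eq k[X] (FractionRing k[X]) L]
  exact (algebraMap (FractionRing k[X]) L).injective.comp (IsFractionRing.injective _ _)

lemma span_top (S : Finset L) {M : ℕ} (hS : ∀ x ∈ S, Sm k 1 x)
    (hd : ∀ x ∈ S, (minpoly (FractionRing k[X]) x).natDegree ≤ M)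
    (hgen : Algebra.adjoin (FractionRing k[X]) (S : Set L) = ⊤) :
    Submodule.span (FractionRing k[X]) {x : L | Sm k (S.card * M) x} = ⊤ := by
  classical
  have key : Subalgebra.toSubmodule (Algebra.adjoin (FractionRing k[X]) (S : Set L)) ≤
      Submodule.span (FractionRing k[X]) {x : L | Sm k (S.card * M) x} := by
    clear hgen
    induction S using Finset.induction_on with
    | empty =>
      rw [Finset.coe_empty, Algebra.adjoin_empty, Algebra.toSubmodule_bot, Submodule.one_eq_span]
      refine Submodule.span_mono ?_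
      rintro _ rfl
      simpa using sm_one
    | insert x S hx ih =>
      have hx1 := hS x (Finset.mem_insert_self _ _)
      have hxi : IsIntegral (FractionRing k[X]) x := hx1.1.tower_top
      rw [Finset.coe_insert, Set.insert_eq, Algebra.adjoin_union_coe_submodule,
        ← Submodule.span_range_natDegree_eq_adjoin (minpoly.monic hxi) (minpoly.aeval _ _)]
      refine (mul_le_mul_right (ih (fun z hz => hS z (Finset.mem_insert_of_mem hz))
        fun z hz => hd z (Finset.mem_insert_of_mem hz)) _).trans ?_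
      rw [Submodule.span_mul_span]
      refine Submodule.span_mono ?_
      rintro _ ⟨a, ha, b, hb, rfl⟩
      obtain ⟨j, hj, rfl⟩ := Finset.mem_image.1 (Finset.mem_coe.1 ha)
      have hj' := (Finset.mem_range.1 hj).trans_le (hd x (Finset.mem_insert_self _ _))
      refine ((hx1.pow j).mul hb).mono ?_
      rw [Finset.card_insert_of_notMem hx, Nat.succ_mul]
      omega
  rw [hgen, Algebra.top_toSubmodule] at key
  exact top_le_iff.1 key

variable [FiniteDimensional (FractionRing k[X]) L] [IsGalois (FractionRing k[X]) L]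

lemma Sm.gal (σ : L ≃ₐ[FractionRing k[X]] L) {n : ℕ} {x : L} (hx : Sm k n x) : Sm k n (σ x) :=
  hx.map (RingHom.id k) (σ : L →+* L) fun r => by
    rw [Polynomial.map_id, IsScalarTower.algebraMap_apply k[X] (FractionRing k[X]) L]
    exact σ.commutes _

/-- the filtration -/
noncomputable def filt {c : ℕ}
    (hc : Submodule.span (FractionRing k[X]) {x : L | Sm k c x} = ⊤) :
    Filt k (integralClosure k[X] L) (finrank (FractionRing k[X]) L) c where
  V n :=
    { carrier := {f | Sm k n (f : L)}
      add_mem' := fun ha hb => ha.add hb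
      zero_mem' := sm_zero n
      smul_mem' := fun a f hf => by
        show Sm k n (a • (f : L))
        rw [Algebra.smul_def]
        simpa using (sm_const a).mul hf }
  mono h _ hf := Sm.mono h hf
  one := sm_one
  mul hf hg := Sm.mul hf hg
  fin hf := by
    have : FaithfulSMul k[X] L := (faithfulSMul_iff_algebraMap_injective _ _).2 inj_L
    have := IsIntegralClosure.finite k[X] (FractionRing k[X]) L (integralClosure k[X] L)
    have := IsIntegralClosure.module_free k[X] (FractionRing k[X]) L (integralClosure k[X] L)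
    exact finite_quot (Module.finBasis k[X] (integralClosure k[X] L)) hf
  quot {n f} hn hf := by
    classical
    have : FaithfulSMul k[X] L := (faithfulSMul_iff_algebraMap_injective _ _).2 inj_L
    have := IsIntegralClosure.finite k[X] (FractionRing k[X]) L (integralClosure k[X] L)
    have := IsIntegralClosure.module_free k[X] (FractionRing k[X]) L (integralClosure k[X] L)
    have := IsIntegralClosure.isLocalization k[X] (FractionRing k[X]) L (integralClosure k[X] L)
    rw [finrank_quotient_span_eq_natDegree_norm (Module.finBasis k[X] (integralClosure k[X] L)) hf]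
    refine deg_le (L := L) inj_L ?_
    rw [IsScalarTower.algebraMap_apply k[X] (FractionRing k[X]) L,
      ← Algebra.norm_localization k[X] (nonZeroDivisors k[X]) (Rₘ := FractionRing k[X]) (Sₘ := L),
      Algebra.norm_eq_prod_automorphisms, ← IsGalois.card_aut_eq_finrank, Nat.card_eq_fintype_card,
      ← Finset.card_univ]
    exact Sm.prod _ _ fun σ _ => Sm.gal σ hn
  dim n := by
    obtain ⟨f, hf, -, hli⟩ := Submodule.exists_fun_fin_finrank_span_eq (FractionRing k[X])
      {x : L | Sm k c x}
    have e : finrank (FractionRing k[X]) (Submodule.span (FractionRing k[X]) {x : L | Sm k c x}) =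
        finrank (FractionRing k[X]) L := by rw [hc, finrank_top]
    have h1 : LinearIndependent k fun j : Fin (n + 1) => (X ^ (j : ℕ) : k[X]) := by
      have := (basisMonomials k).linearIndependent.comp (fun j : Fin (n + 1) => (j : ℕ))
        Fin.val_injective
      simpa [Function.comp_def, ← monomial_one_right_eq_X_pow] using this
    have h2 := linearIndependent_smul h1 (hli.restrict_scalars' k[X])
    let ε : Fin (finrank (FractionRing k[X]) L * (n + 1)) ≃ Fin (n + 1) × Fin (finrank
        (FractionRing k[X]) (Submodule.span (FractionRing k[X]) {x : L | Sm k c x})) :=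
      Fintype.equivOfCardEq (by simp [e, mul_comm])
    have h3 : ∀ i, Sm k (n + c) ((X ^ ((ε i).1 : ℕ) : k[X]) • f (ε i).2) := fun i => by
      rw [Algebra.smul_def, map_pow]
      refine ((sm_X.pow _).mul (hf _)).mono ?_
      have := (ε i).1.2
      omega
    refine ⟨fun i => ⟨_, (h3 i).1⟩, ?_, h3⟩
    exact LinearIndependent.of_comp
      ((integralClosure k[X] L).val.toLinearMap.restrictScalars k) (h2.comp ε ε.injective)

theorem weil [IsAlgClosed k] [CharP k 2] {a b m c : ℕ}
    (hc : Submodule.span (FractionRing k[X]) {x : L | Sm k c x} = ⊤)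
    (hD : finrank (FractionRing k[X]) L ≤ 2 ^ a) (hb : c ≤ 2 ^ b) (hm : 4 * a + 2 * b + 8 ≤ m)
    (Φ : L →+* L) (hΦ : ∀ r : k[X], Φ (algebraMap k[X] L r) =
      algebraMap k[X] L (r.map (iterateFrobenius k 2 m))) :
    ∃ π : integralClosure k[X] L →ₐ[k] k, π (algebraMap k[X] _ X) ≠ 0 ∧
      ∀ f : integralClosure k[X] L, Φ f = f → π f ^ 2 ^ m = π f := by
  have : FaithfulSMul k[X] L := (faithfulSMul_iff_algebraMap_injective _ _).2 inj_L
  have := IsIntegralClosure.isDedekindDomain k[X] (FractionRing k[X]) L (integralClosure k[X] L)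
  have := IsIntegralClosure.finite k[X] (FractionRing k[X]) L (integralClosure k[X] L)
  have := IsIntegralClosure.module_free k[X] (FractionRing k[X]) L (integralClosure k[X] L)
  have := IsIntegralClosure.isFractionRing_of_finite_extension k[X] (FractionRing k[X]) L
    (integralClosure k[X] L)
  have := Algebra.isInvariant_of_isGalois' k[X] (FractionRing k[X]) L (integralClosure k[X] L)
  let ε := galRestrict k[X] (FractionRing k[X]) L (integralClosure k[X] L)
  have : Finite (integralClosure k[X] L ≃ₐ[k[X]] integralClosure k[X] L) :=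
    Finite.of_equiv _ ε.toEquiv
  let φ : integralClosure k[X] L →+* integralClosure k[X] L :=
    (Φ.comp (integralClosure k[X] L).val.toRingHom).codRestrict (integralClosure k[X] L)
      fun f => IsIntegral.map_of_comp_eq (mapRingHom (iterateFrobenius k 2 m)) Φ
        (RingHom.ext fun r => (hΦ r).symm) f.2
  obtain ⟨π, h1, h2⟩ := (filt hc).lower (Module.finBasis k[X] (integralClosure k[X] L))
    (integralClosure k[X] L ≃ₐ[k[X]] integralClosure k[X] L) finrank_pos hD
    (by rw [← Nat.card_congr ε.toEquiv, IsGalois.card_aut_eq_finrank]; exact hD) hb hm φ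
    (fun r => Subtype.ext (hΦ r)) (fun σ n f hf => by
      obtain ⟨σ, rfl⟩ := ε.surjective σ
      show Sm k n (Φ (algebraMap _ L (ε σ f)))
      rw [algebraMap_galRestrict_apply]
      exact (Sm.gal σ hf).map _ Φ hΦ) sm_X
  refine ⟨π, h1, fun f hf => ?_⟩
  rw [← h2, show φ f = f from Subtype.ext hf]

theorem avoid [IsAlgClosed k] {c γ : ℕ}
    (hc : Submodule.span (FractionRing k[X]) {x : L | Sm k c x} = ⊤)
    {g : L} (hg : Sm k γ g) (hg0 : g ≠ 0) (T : Finset k)
    (hT : finrank (FractionRing k[X]) L * γ < T.card) :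
    ∃ π : integralClosure k[X] L →ₐ[k] k, π (algebraMap k[X] _ X) ∈ T ∧ π ⟨g, hg.1⟩ ≠ 0 := by
  classical
  have : FaithfulSMul k[X] L := (faithfulSMul_iff_algebraMap_injective _ _).2 inj_L
  have := IsIntegralClosure.finite k[X] (FractionRing k[X]) L (integralClosure k[X] L)
  have := IsIntegralClosure.module_free k[X] (FractionRing k[X]) L (integralClosure k[X] L)
  choose π0 hπ0 using exists_point (Module.finBasis k[X] (integralClosure k[X] L))
  by_contra hcon
  push Not at hcon
  have h1 := (filt hc).card_zeros (f := ⟨g, hg.1⟩) (n := γ) hg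
    (fun h => hg0 (congrArg Subtype.val h)) (T.image π0) fun π hπ => by
      obtain ⟨x, hx, rfl⟩ := Finset.mem_image.1 hπ
      exact hcon _ (by rwa [hπ0])
  rw [Finset.card_image_of_injective _ fun x y h => by rw [← hπ0 x, h, hπ0]] at h1
  omega

end Pool.Agent.Lib.MP_587b89_lc.Lin
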