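import Mathlib

/-!
Local analysis of the additive trinomials at the wildly ramified place.
-/

set_option autoImplicit false
set_option linter.unusedSectionVars false
open Polynomial

namespace Pool.Agent.Lib.MP_587b89_lc.Lin

/-- the constant coefficient -/
noncomputable abbrev cc {F : Type} [Field F] : PowerSeries F →+* F := PowerSeries.constantCoeff

/-- the variable -/
noncomputable abbrev tt {F : Type} [Field F] : PowerSeries F := PowerSeries.X

lemma hensel {F : Type} [Field F] {H : (PowerSeries F)[X]} (hm : H.Monic) {a : F}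
    (h0 : (H.map cc).eval a = 0) (h1 : (derivative (H.map cc)).eval a ≠ 0) :
    ∃ w : PowerSeries F, H.eval w = 0 ∧ cc w = a := by
  have e : ∀ G : (PowerSeries F)[X], cc (G.eval (PowerSeries.C a)) = (G.map cc).eval a := fun G => by
    rw [eval_map, ← eval₂_at_apply, PowerSeries.constantCoeff_C]
  obtain ⟨w, hw, hw'⟩ := HenselianRing.is_henselian (I := Ideal.span {(tt : PowerSeries F)}) H hm
    (PowerSeries.C a) (by rw [Ideal.mem_span_singleton, PowerSeries.X_dvd_iff, e, h0])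
    (IsUnit.map _ (by
      rw [PowerSeries.isUnit_iff_constantCoeff, e, ← derivative_map]
      exact h1.isUnit))
  rw [Ideal.mem_span_singleton, PowerSeries.X_dvd_iff, map_sub, PowerSeries.constantCoeff_C,
    sub_eq_zero] at hw'
  exact ⟨w, hw, hw'⟩

lemma lift_roots {k : Type} [Field k] [IsAlgClosed k] {H : (PowerSeries k)[X]} (hm : H.Monic)
    (hs : (H.map cc).Separable) (h0 : H.eval 0 = 0) {U : Type} [Field U]
    (φ : PowerSeries k →+* U) {W : U} (hW : eval₂ φ W H = 0) :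
    ∃ w, W = φ w ∧ (H.map cc).eval (cc w) = 0 ∧ (cc w = 0 → w = 0) := by
  classical
  have hne := hs.ne_zero
  have h1 : ∀ a, (H.map cc).eval a = 0 → ∃ w : PowerSeries k, H.eval w = 0 ∧ cc w = a :=
    fun a ha => hensel hm ha (by
      have := hs.aeval_derivative_ne_zero (x := a) (by rwa [coe_aeval_eq_eval])
      rwa [coe_aeval_eq_eval] at this)
  choose! l hl hl' using h1
  have hnd : ((H.map cc).roots.map l).Nodup := (nodup_roots hs).map_on fun a ha b hb e => by
    rw [← hl' a ((mem_roots hne).1 ha), e, hl' b ((mem_roots hne).1 hb)]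
  have hle : (H.map cc).roots.map l ≤ H.roots := (Multiset.le_iff_subset hnd).2 fun w hw => by
    obtain ⟨a, ha, rfl⟩ := Multiset.mem_map.1 hw
    exact (mem_roots hm.ne_zero).2 (hl a ((mem_roots hne).1 ha))
  have hcard : ((H.map cc).roots.map l).card = H.natDegree := by
    rw [Multiset.card_map, IsAlgClosed.card_roots_eq_natDegree, hm.natDegree_map]
  have heq : (H.map cc).roots.map l = H.roots :=
    Multiset.eq_of_le_of_card_le hle (hcard ▸ card_roots' H)
  have hall : ∀ w ∈ H.roots, (H.map cc).eval (cc w) = 0 ∧ l (cc w) = w := fun w hw => by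
    rw [← heq] at hw
    obtain ⟨a, ha, rfl⟩ := Multiset.mem_map.1 hw
    rw [hl' a ((mem_roots hne).1 ha)]
    exact ⟨(mem_roots hne).1 ha, rfl⟩
  rw [← prod_multiset_X_sub_C_of_monic_of_roots_card_eq hm (heq ▸ hcard), eval₂_multiset_prod,
    Multiset.prod_eq_zero_iff, Multiset.map_map] at hW
  obtain ⟨w, hw, e⟩ := Multiset.mem_map.1 hW
  refine ⟨w, by simpa [sub_eq_zero] using e, (hall w hw).1, fun hz => ?_⟩
  have := (hall 0 ((mem_roots hm.ne_zero).2 h0)).2
  rw [map_zero] at this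
  rw [← (hall w hw).2, hz, this]

lemma exists_x {F : Type} [Field F] [CharP F 2] {n : ℕ} (hn : 1 ≤ n) (e : F) :
    ∃ x : PowerSeries F, cc x = 1 ∧ x ^ (2 * n + 1) + x ^ (2 * n) = PowerSeries.C e * tt ^ n := by
  have hm : (X ^ (2 * n + 1) + (X ^ (2 * n) - C (PowerSeries.C e * tt ^ n)) :
      (PowerSeries F)[X]).Monic := by
    refine monic_X_pow_add ?_
    rw [degree_X_pow_sub_C (by omega)]
    exact_mod_cast Nat.lt_succ_self _
  obtain ⟨x, hx, hx'⟩ := hensel hm (a := 1) (by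
    simp [show n ≠ 0 by omega, CharTwo.add_self_eq_zero]) (by
    simp [derivative_X_pow, CharTwo.two_eq_zero, show n ≠ 0 by omega])
  refine ⟨x, hx', ?_⟩
  simp only [eval_add, eval_sub, eval_pow, eval_X, eval_C] at hx
  linear_combination hx

lemma tele2 {U : Type} [CommRing U] [CharP U 2] (z : U) (j : ℕ) :
    ∑ i ∈ Finset.range j, (z ^ 2 + z) ^ 2 ^ (i + 1) = z ^ 2 ^ (j + 1) + z ^ 2 := by
  induction j with
  | zero => simp [CharTwo.add_self_eq_zero]
  | succ j ih =>
    rw [Finset.sum_range_succ, ih, add_pow_char_pow, ← pow_mul, ← pow_succ']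
    have := CharTwo.add_self_eq_zero (z ^ 2 ^ (j + 1))
    linear_combination this

lemma loc_eq {U : Type} [Field U] [CharP U 2] {n j : ℕ} (hj : n + 1 = 2 ^ j) {a x d : U}
    (hx : x ^ (2 * n + 1) + x ^ (2 * n) = a) (hd : a * d ^ 2 ^ (j + 1) + d ^ 2 + d = 0) :
    a * ∑ i ∈ Finset.range j, ((d * x) ^ 2 + d * x) ^ 2 ^ (i + 1) +
      x ^ (2 * n + 1) * ((d * x) ^ 2 + d * x) = 0 := by
  have h2 : (2 : U) = 0 := CharTwo.two_eq_zero
  rw [tele2, show 2 ^ (j + 1) = 2 * n + 2 by rw [pow_succ, ← hj]; ring] at *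
  linear_combination x ^ (2 * n + 2) * hd - d ^ 2 * x ^ 2 * hx + x ^ (2 * n + 3) * d ^ 2 * h2

lemma loc {k : Type} [Field k] [IsAlgClosed k] [CharP k 2] {n j : ℕ} (hn : 1 ≤ n)
    (hj : n + 1 = 2 ^ j) {e : k} (he : e ≠ 0) {x : PowerSeries k} (hx1 : cc x = 1)
    (hx : x ^ (2 * n + 1) + x ^ (2 * n) = PowerSeries.C e * tt ^ n) {U : Type} [Field U]
    (φ : PowerSeries k →+* U) (hφ : Function.Injective φ) {d : U}
    (hd : φ (PowerSeries.C e * tt ^ n) * d ^ 2 ^ (j + 1) + d ^ 2 + d = 0) :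
    ∃ w, φ tt * ((d * φ x) ^ 2 + d * φ x) = φ w ∧ cc w ^ 2 ^ j + e⁻¹ * cc w = 0 ∧
      (cc w = 0 → d * φ x = 0 ∨ d * φ x = 1) := by
  have : CharP U 2 := charP_of_injective_ringHom (f := φ.comp PowerSeries.C)
    (φ.comp PowerSeries.C).injective 2
  obtain ⟨i, rfl⟩ : ∃ i, j = i + 1 := ⟨j - 1, by
    rcases j with _ | j
    · simp at hj; omega
    · rfl⟩
  have h1 := loc_eq hj (x := φ x) (by rw [← map_pow, ← map_pow, ← map_add, hx]) hd
  generalize d * φ x = z at *
  have hlt : ∀ l < i, 2 ^ (l + 1) < 2 ^ (i + 1) := fun l hl =>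
    Nat.pow_lt_pow_right (by norm_num) (by omega)
  let H : (PowerSeries k)[X] := X ^ 2 ^ (i + 1) +
    (∑ l ∈ Finset.range i, C (tt ^ (2 ^ (i + 1) - 2 ^ (l + 1))) * X ^ 2 ^ (l + 1) +
      C (PowerSeries.C e⁻¹ * x ^ (2 * n + 1)) * X)
  have hm : H.Monic := by
    refine monic_X_pow_add ((degree_add_le _ _).trans_lt (max_lt ?_ ?_))
    · refine (degree_sum_le _ _).trans_lt ((Finset.sup_lt_iff (WithBot.bot_lt_coe _)).2
        fun l hl => (degree_C_mul_X_pow_le _ _).trans_lt ?_)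
      exact_mod_cast hlt l (Finset.mem_range.1 hl)
    · refine (degree_C_mul_X_le _).trans_lt ?_
      exact_mod_cast Nat.one_lt_two_pow (by omega)
  have hb : H.map cc = X ^ 2 ^ (i + 1) + C e⁻¹ * X := by
    simp only [H, Polynomial.map_add, Polynomial.map_pow, map_X, Polynomial.map_sum,
      Polynomial.map_mul, map_C, map_mul, map_pow, hx1, PowerSeries.constantCoeff_C,
      PowerSeries.constantCoeff_X, one_pow, mul_one, map_one]
    rw [Finset.sum_eq_zero fun l hl => by
      rw [map_zero, zero_pow (Nat.sub_ne_zero_of_lt (hlt l (Finset.mem_range.1 hl))), zero_mul],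
      zero_add]
  have hs : (H.map cc).Separable := by
    rw [hb, separable_def]
    have : derivative (X ^ 2 ^ (i + 1) + C e⁻¹ * X : k[X]) = C e⁻¹ := by
      simp [derivative_X_pow, CharTwo.two_eq_zero]
    rw [this]
    exact ⟨0, C e, by rw [zero_mul, zero_add, ← C_mul, mul_inv_cancel₀ he, C_1]⟩
  have he' : φ (PowerSeries.C e⁻¹) * φ (PowerSeries.C e) = 1 := by
    rw [← map_mul, ← map_mul, inv_mul_cancel₀ he, map_one, map_one]
  obtain ⟨w, hw, hw1, hw2⟩ := lift_roots hm hs (by simp [H, eval_finsetSum]) φ (W := φ tt * (z ^ 2 + z)) (by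
    simp only [H, eval₂_add, eval₂_pow, eval₂_finsetSum, eval₂_mul, eval₂_C, eval₂_X, map_mul,
      map_pow]
    rw [Finset.sum_range_succ, map_mul, map_pow] at h1
    have h2 : ∑ l ∈ Finset.range i, φ tt ^ (2 ^ (i + 1) - 2 ^ (l + 1)) *
        (φ tt * (z ^ 2 + z)) ^ 2 ^ (l + 1) =
        φ tt ^ (n + 1) * ∑ l ∈ Finset.range i, (z ^ 2 + z) ^ 2 ^ (l + 1) := by
      rw [Finset.mul_sum]
      refine Finset.sum_congr rfl fun l hl => ?_
      rw [mul_pow, ← mul_assoc, ← pow_add, Nat.sub_add_cancel (hlt l (Finset.mem_range.1 hl)).le,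
        hj]
    rw [h2, mul_pow, ← hj]
    rw [← hj] at h1
    linear_combination φ tt * φ (PowerSeries.C e⁻¹) * h1 - φ tt ^ (n + 1) *
      (∑ l ∈ Finset.range i, (z ^ 2 + z) ^ 2 ^ (l + 1) + (z ^ 2 + z) ^ (n + 1)) * he')
  refine ⟨w, hw, by simpa [hb] using hw1, fun h0 => ?_⟩
  rw [hw2 h0, map_zero, mul_eq_zero, map_eq_zero_iff _ hφ] at hw
  have h3 : z * (z - 1) = 0 := by
    have h2 : (2 : U) = 0 := CharTwo.two_eq_zero
    linear_combination hw.resolve_left PowerSeries.X_ne_zero - z * h2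
  exact (mul_eq_zero.1 h3).imp id sub_eq_zero.1

lemma not_as {k K U : Type} [Field k] [Field K] [Algebra (PowerSeries k) K]
    [IsFractionRing (PowerSeries k) K] [Field U] [Algebra K U] {z : U}
    (hz : z ∈ (algebraMap K U).range) {w : PowerSeries k}
    (h : algebraMap K U (algebraMap _ K (tt : PowerSeries k)) * (z ^ 2 + z) =
      algebraMap K U (algebraMap _ K w)) : cc w = 0 := by
  obtain ⟨z, rfl⟩ := hz
  rw [← map_pow, ← map_add, ← map_mul, (algebraMap K U).injective.eq_iff] at h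
  have h1 : IsIntegral (PowerSeries k) (algebraMap _ K (tt : PowerSeries k) * z) :=
    ⟨X ^ 2 + (C tt * X - C (tt * w)), monic_X_pow_add ((degree_sub_le _ _).trans_lt
      (max_lt ((degree_C_mul_X_le _).trans_lt (by norm_num)) (degree_C_le.trans_lt (by norm_num)))),
      by
        simp only [eval₂_add, eval₂_sub, eval₂_mul, eval₂_C, eval₂_X, eval₂_X_pow, map_mul]
        linear_combination algebraMap _ K (tt : PowerSeries k) * h⟩
  obtain ⟨p, hp⟩ := IsIntegrallyClosed.isIntegral_iff.1 h1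
  have h2 : p ^ 2 + tt * p = tt * w := by
    apply IsFractionRing.injective (PowerSeries k) K
    simp only [map_add, map_mul, map_pow, hp]
    linear_combination algebraMap _ K (tt : PowerSeries k) * h
  have h3 : cc p = 0 := by simpa using congrArg cc h2
  obtain ⟨p', rfl⟩ := PowerSeries.X_dvd_iff.2 h3
  have h4 : w = tt * (p' ^ 2 + p') :=
    mul_left_cancel₀ PowerSeries.X_ne_zero (by linear_combination -h2)
  simp [h4]

lemma as_small {F : Type} [Field F] [CharP F 2] {r : PowerSeries F} (hr : cc r = 0) :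
    ∃ p : PowerSeries F, p ^ 2 + p = r := by
  have hm : (X ^ 2 + (X - C r) : (PowerSeries F)[X]).Monic :=
    monic_X_pow_add (by rw [degree_X_sub_C]; norm_num)
  obtain ⟨p, hp, -⟩ := hensel hm (a := 0) (by simp [hr]) (by simp)
  refine ⟨p, ?_⟩
  simp only [eval_add, eval_sub, eval_pow, eval_X, eval_C] at hp
  linear_combination hp

lemma two_case {F k K U : Type} [Field F] [CharP F 2] [Field k] (f : F →+* k) [Field K]
    [Algebra (PowerSeries k) K] [IsFractionRing (PowerSeries k) K] [Field U] [Algebra K U]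
    (E : Finset F) (hE0 : (0 : F) ∉ E) (hO : ∀ W ⊆ E, Odd W.card → ∑ e ∈ W, e⁻¹ ≠ 0)
    (x : E → PowerSeries F) (hx1 : ∀ e, cc (x e) = 1)
    (hx : ∀ e, x e ^ (2 * 1 + 1) + x e ^ (2 * 1) = PowerSeries.C (e : F) * tt ^ 1)
    (φ : PowerSeries F →+* U) (hφ : ∀ p, φ p = algebraMap K U (algebraMap _ K (PowerSeries.map f p)))
    (d : E → U) (hd : ∀ e : E, φ (PowerSeries.C (e : F) * tt ^ 1) * d e ^ 2 ^ (1 + 1) + d e ^ 2 + d e = 0)
    (hz : ∑ e, d e * φ (x e) ∈ (algebraMap K U).range) : ∑ e, d e * φ (x e) ∈ φ.range := by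
  classical
  have : CharP U 2 := charP_of_injective_ringHom (f := φ.comp PowerSeries.C)
    (φ.comp PowerSeries.C).injective 2
  have : CharP (PowerSeries F) 2 := charP_of_injective_ringHom (f := PowerSeries.C)
    PowerSeries.C_injective 2
  have h2 : (2 : U) = 0 := CharTwo.two_eq_zero
  have h2' : (2 : PowerSeries F) = 0 := CharTwo.two_eq_zero
  have he : ∀ e : E, (e : F) ≠ 0 := fun e h => hE0 (h ▸ e.2)
  have hρ : ∀ e : E, ∃ ρ : PowerSeries F, cc ρ = 0 ∧
      PowerSeries.C (e : F)⁻¹ * x e ^ 3 = PowerSeries.C (e : F)⁻¹ + tt * (1 + ρ) := by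
    intro e
    obtain ⟨y, hy⟩ := (PowerSeries.isUnit_iff_constantCoeff.2
      (show IsUnit (cc (x e)) by rw [hx1]; exact isUnit_one)).exists_right_inv
    have hc : PowerSeries.C (e : F)⁻¹ * PowerSeries.C (e : F) = 1 := by
      rw [← map_mul, inv_mul_cancel₀ (he e), map_one]
    refine ⟨(x e + 1) * y ^ 2, by simp [hx1, CharTwo.add_self_eq_zero], ?_⟩
    have h := hx e
    generalize PowerSeries.C (e : F)⁻¹ = a at *
    generalize PowerSeries.C (e : F) = b at *
    generalize x e = x at *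
    have ht : (tt : PowerSeries F) = a * (x ^ 3 + x ^ 2) := by
      linear_combination -a * h - tt * hc
    rw [ht]
    linear_combination -a * (x + 1) ^ 2 * (x * y + 1) * hy - a * (x ^ 2 + x + 1) * h2'
  choose ρ hρ0 hρ using hρ
  have ht : φ tt ≠ 0 := by
    rw [hφ, PowerSeries.map_X, _root_.map_ne_zero,
      map_ne_zero_iff _ (IsFractionRing.injective _ _)]
    exact PowerSeries.X_ne_zero
  let D : Finset E := Finset.univ.filter fun e => (d e * φ (x e)) ^ 2 + d e * φ (x e) ≠ 0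
  have h1 : ∀ e ∈ D, φ tt * ((d e * φ (x e)) ^ 2 + d e * φ (x e)) =
      φ (PowerSeries.C (e : F)⁻¹ + tt * (1 + ρ e)) := by
    intro e hD
    have h3 := loc_eq (n := 1) (j := 1) (by norm_num) (x := φ (x e))
      (by rw [← map_pow, ← map_pow, ← map_add, hx]) (hd e)
    have hc : φ (PowerSeries.C (e : F)⁻¹) * φ (PowerSeries.C (e : F)) = 1 := by
      rw [← map_mul, ← map_mul, inv_mul_cancel₀ (he e), map_one, map_one]
    rw [← hρ, map_mul, map_pow]
    apply mul_right_cancel₀ (Finset.mem_filter.1 hD).2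
    rw [Finset.sum_range_one, map_mul, pow_one] at h3
    generalize (d e * φ (x e)) ^ 2 + d e * φ (x e) = Z at *
    linear_combination φ (PowerSeries.C (e : F)⁻¹) * h3 - φ tt * Z ^ 2 * hc -
      φ (PowerSeries.C (e : F)⁻¹) * φ (x e) ^ 3 * Z * h2
  have h3 : φ tt * ((∑ e, d e * φ (x e)) ^ 2 + ∑ e, d e * φ (x e)) =
      φ (∑ e ∈ D, (PowerSeries.C (e : F)⁻¹ + tt * (1 + ρ e))) := by
    rw [map_sum, ← Finset.sum_congr rfl h1, ← Finset.mul_sum, sum_pow_char, ← Finset.sum_add_distrib,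
      Finset.sum_filter_ne_zero]
  have h4 : ∑ e ∈ D, (e : F)⁻¹ = 0 := by
    have := not_as hz (w := PowerSeries.map f (∑ e ∈ D, (PowerSeries.C (e : F)⁻¹ + tt * (1 + ρ e))))
      (by rw [← hφ, ← h3, hφ, PowerSeries.map_X])
    apply f.injective
    simpa using this
  have h5 : Even D.card := by
    rw [← Nat.not_odd_iff_even]
    intro ho
    refine hO (D.map (Function.Embedding.subtype _)) (fun e he => ?_) (by simpa using ho) ?_
    · obtain ⟨e, -, rfl⟩ := Finset.mem_map.1 he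
      exact e.2
    · rw [Finset.sum_map]; exact h4
  obtain ⟨p, hp⟩ := as_small (r := ∑ e ∈ D, ρ e) (by simp [hρ0])
  have h6 : ∑ e ∈ D, (PowerSeries.C (e : F)⁻¹ + tt * (1 + ρ e)) = tt * (p ^ 2 + p) := by
    obtain ⟨r, hr⟩ := h5
    rw [Finset.sum_add_distrib, ← map_sum, h4, map_zero, zero_add, ← Finset.mul_sum,
      Finset.sum_add_distrib, Finset.sum_const, hr, add_nsmul, CharTwo.add_self_eq_zero, zero_add,
      hp]
  rw [h6, map_mul, mul_right_inj' ht, map_add, map_pow] at h3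
  generalize ∑ e, d e * φ (x e) = z at *
  have h7 : (z - φ p) * (z - φ (p + 1)) = 0 := by
    rw [map_add, map_one]
    linear_combination h3 + (φ p ^ 2 + φ p - z - z * φ p) * h2
  rcases mul_eq_zero.1 h7 with h | h
  · exact ⟨_, (sub_eq_zero.1 h).symm⟩
  · exact ⟨_, (sub_eq_zero.1 h).symm⟩

end Pool.Agent.Lib.MP_587b89_lc.Lin
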