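import Pool.Agent.Lib.MP_587b89_lc.Lin.StepU1

/-!
The pullback step, once the additive polynomials split.
-/

set_option autoImplicit false
set_option linter.unusedSectionVars false
set_option linter.overlappingInstances false
open Polynomial Module

namespace Pool.Agent.Lib.MP_587b89_lc.Lin

lemma cuP_ne {k : Type} [Field k] {s : ℕ} (hs : 1 ≤ s) (a : k) : cuP s a ≠ 0 := fun h => by
  have := cuP_ge hs a
  simp [h] at this

lemma cuP_eval {k : Type} [Field k] (s : ℕ) (a x : k) :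
    aeval x (cuP s a) = a * x ^ 2 ^ s + x ^ 2 + x := cuP_aeval s a x

lemma cu_count {F : Type} [Field F] [Fintype F] [CharP F 2] {s : ℕ} (hs : 1 ≤ s) {ι : Type}
    [Fintype ι] (a : ι → F) (ha : ∀ e, a e ≠ 0) : ∃ T : Finset F,
      Fintype.card F ≤ T.card * (2 ^ s) ^ Fintype.card ι ∧
      ∀ t ∈ T, ∀ e, ∃ y, aeval y (cuP s (a e)) = a e * t := by
  classical
  let A : ι → F →+ F := fun e => AddMonoidHom.mk' (fun y => aeval y (cuP s (a e))) (cuP_add s _)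
  let H : AddSubgroup F := ⨅ e, (A e).range.comap (AddMonoidHom.mulLeft (a e))
  have h1 : H.index ≤ (2 ^ s) ^ Fintype.card ι := by
    refine (AddSubgroup.index_iInf_le _).trans ?_
    rw [← Finset.card_univ]
    refine Finset.prod_le_pow_card _ _ _ fun e _ => ?_
    rw [AddSubgroup.index_comap_of_surjective _ (mul_left_surjective₀ (ha e)),
      AddSubgroup.index_range]
    refine le_trans ?_ (((Multiset.toFinset_card_le _).trans (card_roots' _)).trans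
      (cuP_le hs (a e)))
    rw [← Nat.card_eq_finsetCard]
    exact Nat.card_le_card_of_injective (fun y => ⟨y.1, by
      rw [Multiset.mem_toFinset, mem_roots (cuP_ne hs _), IsRoot.def, ← coe_aeval_eq_eval]
      exact y.2⟩) fun y z h => Subtype.ext (Subtype.mk.inj h)
  refine ⟨Finset.univ.filter (· ∈ H), ?_, fun t ht e => ?_⟩
  · rw [← Nat.card_eq_fintype_card, ← H.card_mul_index, ← Fintype.card_subtype,
      ← Nat.card_eq_fintype_card]
    exact Nat.mul_le_mul_left _ h1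
  · exact AddSubgroup.mem_iInf.1 (Finset.mem_filter.1 ht).2 e

lemma cu_arith {s n m N : ℕ} (hn : 1 ≤ n) (hm : 4 * (2 ^ s * n + 1) + 3 ≤ m)
    (hN : 2 ^ m ≤ N * (2 ^ s) ^ n) :
    (2 ^ s) ^ n * (2 ^ (2 ^ s * n + 1) * (1 + 2 ^ s * (2 ^ s * n + 1))) + 2 < N := by
  obtain ⟨j, hj⟩ : ∃ j, j = 2 ^ s * n := ⟨_, rfl⟩
  have h1 : (2 ^ s) ^ n ≤ 2 ^ j := by
    rw [← pow_mul, hj]
    exact Nat.pow_le_pow_right (by omega) (Nat.mul_le_mul_right _ Nat.lt_two_pow_self.le)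
  have h2 : 2 ^ s ≤ j := hj ▸ Nat.le_mul_of_pos_right _ hn
  rw [← hj] at hm ⊢
  have h3 : ∀ i : ℕ, 1 + i * (i + 1) ≤ 4 * 2 ^ i := by
    intro i
    induction i with
    | zero => simp
    | succ i ih =>
      have := Nat.lt_two_pow_self (n := i)
      rw [pow_succ]
      nlinarith
  have h4 : 1 + 2 ^ s * (j + 1) ≤ 4 * 2 ^ j :=
    (Nat.add_le_add_left (Nat.mul_le_mul_right _ h2) 1).trans (h3 j)
  have h5 : 2 ^ (4 * j + 7) ≤ 2 ^ m := Nat.pow_le_pow_right (by omega) (by omega)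
  have h6 : 1 ≤ 2 ^ j := Nat.one_le_two_pow
  have h7 : 2 ^ (4 * j + 7) = 128 * (2 ^ j * 2 ^ j * 2 ^ j) * 2 ^ j := by ring
  have h8 : 128 * (2 ^ j * 2 ^ j * 2 ^ j) ≤ N := Nat.le_of_mul_le_mul_right
    (h7 ▸ (h5.trans hN).trans (Nat.mul_le_mul_left _ h1)) h6
  have h9 := Nat.mul_le_mul h1 (Nat.mul_le_mul_left (2 ^ (j + 1)) h4)
  have h10 : 2 ^ j * (2 ^ (j + 1) * (4 * 2 ^ j)) = 8 * (2 ^ j * 2 ^ j * 2 ^ j) := by ring
  have h11 : 0 < 2 ^ j * 2 ^ j * 2 ^ j := by positivity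
  omega

theorem choose_u {F : Type} [Field F] [Fintype F] [CharP F 2] {m s : ℕ}
    (hF : Fintype.card F = 2 ^ m) (hs : 1 ≤ s) (E : Finset F) (hE0 : (0 : F) ∉ E)
    (hE1 : 1 ≤ E.card) {I : F} (hI : I ≠ 0)
    (hV : ∀ e ∈ E, ∃ V : Finset F, V.card = 2 ^ s ∧ ∀ d ∈ V, e * I * d ^ 2 ^ s + d ^ 2 + d = 0)
    (hm : 4 * (2 ^ s * E.card + 1) + 3 ≤ m) :
    ∃ (u : F) (D : F → Finset F), u ≠ 0 ∧ u ≠ 1 ∧ (∀ e ∈ E, (D e).card = 2 ^ s ∧
      ∀ d ∈ D e, e * I * d ^ 2 ^ s + d ^ 2 + d = e * I * u ^ 2 ^ s) ∧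
      ∀ W : Finset F, (∀ d ∈ W, d = 1 ∨ ∃ e ∈ E, d ∈ D e) → u * ∑ d ∈ W, d⁻¹ ≠ 1 := by
  classical
  choose! V hV1 hV2 using hV
  have ha : ∀ e : E, e.1 * I ≠ 0 := fun e => mul_ne_zero (fun h => hE0 (h ▸ e.2)) hI
  obtain ⟨T, hT1, hT2⟩ := cu_count hs (fun e : E => e.1 * I) ha
  rw [hF, Fintype.card_coe] at hT1
  have hA := cu_arith hE1 hm hT1
  obtain ⟨φ⟩ : Nonempty (F →+* AlgebraicClosure F) := ⟨algebraMap F _⟩
  have hJ : Fintype.card (Σ e : E, V e.1) = 2 ^ s * E.card := by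
    rw [Fintype.card_sigma, Finset.sum_congr rfl (g := fun _ => 2 ^ s) fun e _ => by
      rw [Fintype.card_coe, hV1 e.1 e.2]]
    simp [mul_comm]
  obtain ⟨_, ht, y, hy, hW⟩ := cu_ff (AlgebraicClosure (FractionRing (AlgebraicClosure F)[X])) hs
    (fun e : E => φ (e.1 * I)) (fun e => (map_ne_zero φ).2 (ha e))
    (fun j : Σ e : E, V e.1 => j.1) (fun j => φ j.2.1) (((T.erase 0).erase 1).image φ) (by
      rw [Finset.card_image_of_injective _ φ.injective, hJ, Fintype.card_coe]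
      have h1 := Finset.pred_card_le_card_erase (s := T) (a := 0)
      have h2 := Finset.pred_card_le_card_erase (s := T.erase 0) (a := 1)
      omega)
  obtain ⟨t, ht', rfl⟩ := Finset.mem_image.1 ht
  clear ht
  obtain ⟨ht1, ht0, ht⟩ : t ≠ 1 ∧ t ≠ 0 ∧ t ∈ T := by simpa using ht'
  have hev : ∀ a x : F, aeval (φ x) (cuP s (φ a)) = φ (aeval x (cuP s a)) := fun a x => by
    simp [cuP_eval]
  have hy0 : ∀ e : E, ∃ z : F, φ z = y e := fun e => by
    obtain ⟨z, hz⟩ := hT2 t ht e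
    have h1 : aeval (y e + φ z) (cuP s (φ (e.1 * I))) = 0 := by
      rw [cuP_add, hy, hev, hz, map_mul φ _ t, CharTwo.add_self_eq_zero]
    have hr := roots_eq_of_natDegree_le_card_of_ne_zero (p := cuP s (φ (e.1 * I)))
      (S := (V e.1).image φ) (fun x hx => by
        obtain ⟨v, hv, rfl⟩ := Finset.mem_image.1 hx
        rw [← coe_aeval_eq_eval, hev, cuP_eval, hV2 e.1 e.2 v hv, map_zero])
      (by rw [Finset.card_image_of_injective _ φ.injective, hV1 e.1 e.2]; exact cuP_le hs _)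
      (cuP_ne hs _)
    have h2 : y e + φ z ∈ (cuP s (φ (e.1 * I))).roots := (mem_roots (cuP_ne hs _)).2 h1
    rw [hr] at h2
    obtain ⟨v, -, hv⟩ := Finset.mem_image.1 (show _ ∈ (V e.1).image φ from h2)
    exact ⟨v - z, by rw [map_sub, hv, add_sub_cancel_right]⟩
  choose z hz using hy0
  have hz2 : ∀ e : E, aeval (z e) (cuP s (e.1 * I)) = e.1 * I * t := fun e =>
    φ.injective (by rw [← hev, hz, hy, map_mul φ _ t])
  obtain ⟨u, hu⟩ : ∃ u : F, u ^ 2 ^ s = t :=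
    Finite.injective_iff_surjective.1 (iterateFrobenius F 2 s).injective t
  obtain ⟨z', hz'⟩ : ∃ z' : F → F, ∀ e : E, z' e.1 = z e :=
    ⟨fun e => if h : e ∈ E then z ⟨e, h⟩ else 0, fun e => dif_pos e.2⟩
  have hD : ∀ e ∈ E, ∀ d ∈ (V e).image (z' e + ·), aeval d (cuP s (e * I)) = e * I * t := by
    intro e he d hd
    obtain ⟨v, hv, rfl⟩ := Finset.mem_image.1 hd
    rw [cuP_add, hz' ⟨e, he⟩, hz2 ⟨e, he⟩, cuP_eval, hV2 e he v hv, add_zero]
  refine ⟨u, fun e => (V e).image (z' e + ·), ?_, ?_, fun e he => ⟨?_, fun d hd => ?_⟩,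
    fun W hW1 h => ?_⟩
  · rintro rfl
    exact ht0 (by rw [← hu, zero_pow (by positivity)])
  · rintro rfl
    exact ht1 (by rw [← hu, one_pow])
  · rw [Finset.card_image_of_injective _ (add_right_injective _), hV1 e he]
  · rw [← cuP_eval, hD e he d hd, hu]
  · obtain ⟨x, hx1, hx2⟩ : ∃ x : Option (Σ e : E, V e.1) → AlgebraicClosure F, x none = 1 ∧
        ∀ j, x (some j) = y j.1 + φ j.2.1 :=
      ⟨fun j => j.elim 1 fun j => y j.1 + φ j.2.1, rfl, fun _ => rfl⟩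
    have h1 : ∀ d ∈ W, d ≠ 0 ∧ ∃ j, x j = φ d := fun d hd => by
      rcases hW1 d hd with rfl | ⟨e, he, hd⟩
      · exact ⟨one_ne_zero, none, by rw [hx1, map_one]⟩
      · refine ⟨?_, ?_⟩
        · rintro rfl
          have := hD e he 0 hd
          rw [cuP_eval, zero_pow (by positivity)] at this
          exact mul_ne_zero (ha ⟨e, he⟩) ht0 (by rw [← this]; simp)
        · obtain ⟨v, hv, rfl⟩ := Finset.mem_image.1 hd
          exact ⟨some ⟨⟨e, he⟩, ⟨v, hv⟩⟩, by rw [hx2, map_add, hz' ⟨e, he⟩, hz]⟩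
    have : Nonempty (Option (Σ e : E, V e.1)) := ⟨none⟩
    choose! j hj using fun d hd => (h1 d hd).2
    refine hW x hx1 hx2 (φ u) (by rw [← map_pow, hu]) (W.image j) (fun i hi => ?_) ?_
    · obtain ⟨d, hd, rfl⟩ := Finset.mem_image.1 hi
      rw [hj d hd]
      exact (map_ne_zero φ).2 (h1 d hd).1
    · rw [Finset.sum_image fun d hd d' hd' e => φ.injective (by rw [← hj d hd, e, hj d' hd']),
        Finset.sum_congr rfl (g := fun d => φ d⁻¹) fun d hd => by rw [hj d hd, map_inv₀],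
        ← map_sum, ← map_mul, h, map_one]

end Pool.Agent.Lib.MP_587b89_lc.Lin
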