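import Pool.Agent.Lib.MP_587b89_lc.Lin.StepI
import Pool.Agent.Lib.MP_587b89_lc.Lin.StepU
import Pool.Agent.Lib.MP_587b89_lc.Code

/-!
The induction on the designed distance.
-/

set_option autoImplicit false
set_option linter.unusedSectionVars false
set_option linter.overlappingInstances false
open Polynomial Module

namespace Pool.Agent.Lib.MP_587b89_lc.Lin

lemma sq_le (j : ℕ) : (j + 1) ^ 2 - 1 ≤ 2 ^ (j + 1) := by
  have : ∀ i, (i + 3) ^ 2 ≤ 2 ^ (i + 3) + 1 ∧ 2 * (i + 3) + 1 ≤ 2 ^ (i + 3) := fun i => by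
    induction i with
    | zero => norm_num
    | succ i ih =>
      rw [show i + 1 + 3 = i + 3 + 1 by ring, pow_succ 2]
      constructor <;> nlinarith [ih.1, ih.2]
  rcases j with _ | _ | j
  · norm_num
  · norm_num
  · exact Nat.sub_le_of_le_add (this j).1

theorem exists_wd {F : Type} [Field F] [Fintype F] [CharP F 2] {m : ℕ}
    (hF : Fintype.card F = 2 ^ m) (δ : ℕ) (hδ : Odd δ) (hm : 4 * δ + 4 * Nat.log 2 δ + 8 ≤ m) :
    ∃ E, Wd F δ E := by
  classical
  induction δ using Nat.strong_induction_on with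
  | _ δ ih =>
  rcases eq_or_ne δ 1 with rfl | h1
  · refine ⟨{1}, rfl, by simp, ⟨1, ?_⟩, fun U hU hO => ?_⟩
    · have h2 : (2 : F[X]) = 0 := CharTwo.two_eq_zero
      simp only [Finset.prod_singleton, derivative_mul, derivative_X, derivative_sub, map_one,
        derivative_one]
      linear_combination (X - 1) * h2
    · rcases Finset.subset_singleton_iff.1 hU with rfl | rfl
      · simp at hO
      · simp
  obtain ⟨s, d, hd, hs⟩ := Nat.exists_eq_two_pow_mul_odd (n := δ - 1) (by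
    have := hδ.pos; omega)
  obtain rfl : δ = 2 ^ s * d + 1 := by have := hδ.pos; omega
  have hs1 : 1 ≤ s := Nat.pos_of_ne_zero (by
    rintro rfl
    rw [pow_zero, one_mul] at hδ
    exact (Nat.not_odd_iff_even.2 hd.add_one) hδ)
  have hd0 := hd.pos
  have hlt : d < 2 ^ s * d + 1 := Nat.lt_succ_of_le (Nat.le_mul_of_pos_left _ (by positivity))
  obtain ⟨E, hE⟩ := ih d hlt hd (by
    have := Nat.log_mono_right (b := 2) hlt.le
    omega)
  have key : ∃ I : F, I ≠ 0 ∧ ∀ e ∈ E, ∃ V : Finset F, V.card = 2 ^ s ∧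
      ∀ x ∈ V, e * I * x ^ 2 ^ s + x ^ 2 + x = 0 := by
    obtain ⟨j, rfl⟩ : ∃ j, s = j + 1 := ⟨s - 1, by omega⟩
    rcases Nat.eq_zero_or_pos j with rfl | hj
    · obtain ⟨I, -, hI⟩ := Finset.exists_mem_notMem_of_card_lt_card
        (s := insert 0 (E.image fun e => e⁻¹)) (t := Finset.univ) (by
          have h3 := Finset.card_insert_le 0 (E.image fun e => e⁻¹)
          have h4 := Finset.card_image_le (s := E) (f := fun e => e⁻¹)
          have h5 := Nat.lt_two_pow_self (n := m)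
          rw [Finset.card_univ, hF]
          have := hE.1
          omega)
      rw [Finset.mem_insert, not_or] at hI
      refine ⟨I, hI.1, fun e he => ?_⟩
      have h2 : (2 : F) = 0 := CharTwo.two_eq_zero
      have h3 : e * I + 1 ≠ 0 := fun h => hI.2 (Finset.mem_image.2 ⟨e, he,
        inv_eq_of_mul_eq_one_right (by linear_combination h - h2)⟩)
      refine ⟨{0, (e * I + 1)⁻¹}, Finset.card_pair (inv_ne_zero h3).symm, fun x hx => ?_⟩
      rcases Finset.mem_insert.1 hx with rfl | hx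
      · simp
      · rw [Finset.mem_singleton.1 hx, zero_add, pow_one]
        linear_combination (e * I + 1)⁻¹ * mul_inv_cancel₀ h3 + (e * I + 1)⁻¹ * h2
    · have h2 : 2 ≤ 2 ^ j := by simpa using Nat.pow_le_pow_right (n := 2) (by norm_num) hj
      have h3 := Nat.lt_pow_succ_log_self (b := 2) (by norm_num) (2 ^ (j + 1) * d + 1)
      refine stepI_k (n := 2 ^ j - 1) (a := 2 ^ (j + 1) * d)
        (b := 2 * (Nat.log 2 (2 ^ (j + 1) * d + 1) + 1)) hF (by omega) (by omega) E hE.2.1 hE.2.2.2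
        (by rw [hE.1]; exact Nat.mul_le_mul_right _ (sq_le j)) ?_ (by omega)
      have h4 : 2 * (2 ^ j - 1) + 1 ≤ 2 ^ (j + 1) := by rw [pow_succ]; omega
      have h5 : 2 ^ (j + 1) ≤ 2 ^ (j + 1) * d := Nat.le_mul_of_pos_right _ hd0
      rw [hE.1, two_mul (_ + 1), pow_add 2 (_ + 1) (_ + 1)]
      refine Nat.mul_le_mul (((Nat.mul_le_mul_left _ h4).trans ?_)) ?_
      · rw [mul_comm]; omega
      · omega
  obtain ⟨I, hI, hV⟩ := key
  obtain ⟨u, D, hu0, hu1, hD, hO⟩ := choose_u hF hs1 E hE.2.1 (by rw [hE.1]; omega) hI hV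
    (by rw [hE.1]; omega)
  exact pull hs1 hE hI hu0 hu1 D hD hO

lemma word_of_wd {F : Type} [Field F] [Algebra (ZMod 2) F] {δ : ℕ} {E : Finset F}
    (h : Wd F δ E) : Word (ZMod 2) F δ := by
  classical
  obtain ⟨hc, h0, ⟨c, hd⟩, -⟩ := h
  refine ⟨E, inferInstance, Subtype.val, fun _ => 1, by simp [hc], Subtype.val_injective,
    fun i h => h0 (h ▸ i.2), fun _ => one_ne_zero, fun j hj hj' => ?_⟩
  obtain ⟨n, rfl⟩ := Nat.exists_eq_add_of_le' hj
  have := Lagrange.coeff_eq_sum (s := E) (v := id) (Set.injOn_id _) (P := X ^ n) (by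
    rw [degree_X_pow, hc]; exact_mod_cast (by omega))
  rw [coeff_X_pow, if_neg (by omega)] at this
  rw [← mul_zero c, this, Finset.mul_sum, ← Finset.sum_coe_sort E]
  refine Finset.sum_congr rfl fun a _ => ?_
  have h1 := congrArg (eval (a : F)) hd
  have h2 := Lagrange.eval_nodal_derivative_eval_node_eq (v := id) a.2
  have h3 := Lagrange.eval_nodal_at_node (v := id) a.2
  rw [Lagrange.eval_nodal] at h2
  change eval _ (derivative (X * Lagrange.nodal E id)) = _ at h1
  rw [derivative_mul, derivative_X, eval_add, eval_mul, eval_mul, eval_X, eval_C] at h1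
  have h4 : ∏ j ∈ E.erase a, (id (a : F) - id j) ≠ 0 := Finset.prod_ne_zero_iff.2 fun i hi =>
    sub_ne_zero.2 (Finset.mem_erase.1 hi).1.symm
  simp only [id] at h2 h3 h4 ⊢
  rw [h2, h3] at h1
  rw [← h1, map_one, eval_pow, eval_X]
  field_simp
  ring

theorem linear_range (m δ : ℕ) (hδ : 2 ≤ δ) (hm : 4 * δ + 4 * Nat.log 2 δ + 8 ≤ m)
    (E : Type) [Field E] [Algebra (ZMod 2) E] (hE : Module.finrank (ZMod 2) E = m)
    (α : E) (hα : IsPrimitiveRoot α (2 ^ m - 1)) :
    IsLeast {w | ∃ a : Fin (2 ^ m - 1) → ZMod 2, a ≠ 0 ∧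
      (∀ j, 1 ≤ j → j < δ → ∑ i, algebraMap (ZMod 2) E (a i) * (α ^ j) ^ (i : ℕ) = 0) ∧
      hammingNorm a = w} δ ↔ Odd δ := by
  rcases Nat.even_or_odd δ with hd | hd
  · refine iff_of_false ?_ (Nat.not_odd_iff_even.2 hd)
    rintro ⟨⟨a, ha, h1, h2⟩, -⟩
    obtain ⟨d, hd⟩ := hd
    have := bch_bound (δ := δ + 1) hα ha fun j hj hj' => by
      rcases Nat.lt_succ_iff_lt_or_eq.1 hj' with hj' | rfl
      · exact h1 j hj hj'
      · have h3 := congrArg (FiniteField.frobeniusAlgHom (ZMod 2) E) (h1 d (by omega) (by omega))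
        rw [map_zero, map_sum] at h3
        rw [← h3]
        refine Finset.sum_congr rfl fun i _ => ?_
        rw [map_mul, AlgHom.commutes, FiniteField.frobeniusAlgHom_apply, hd, ZMod.card]
        ring
    omega
  · have : FiniteDimensional (ZMod 2) E := FiniteDimensional.of_finrank_pos (by omega)
    have : Finite E := Module.finite_of_finite (ZMod 2)
    have := Fintype.ofFinite E
    have : CharP E 2 := charP_of_injective_algebraMap (algebraMap (ZMod 2) E).injective 2
    have hc : Fintype.card E = 2 ^ m := by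
      rw [Module.card_eq_pow_finrank (K := ZMod 2) (V := E), hE, ZMod.card]
    obtain ⟨S, hS⟩ := exists_wd hc δ hd hm
    refine iff_of_true ⟨code_of_word (by omega) (by rw [hc]) hα (word_of_wd hS), ?_⟩ hd
    rintro w ⟨a, ha, h1, rfl⟩
    exact bch_bound hα ha h1

end Pool.Agent.Lib.MP_587b89_lc.Lin
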