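import Pool.Agent.Lib.MP_587b89_lc.Lin.Spl

/-!
The pullback of a word along a rational map.
-/

set_option autoImplicit false
set_option linter.unusedSectionVars false
set_option linter.overlappingInstances false
open Polynomial Module

namespace Pool.Agent.Lib.MP_587b89_lc.Lin

lemma pl_fac {F : Type} [Field F] {Q : F[X]} (hQ : Q.Monic) (hd : 1 ≤ Q.natDegree) (r : F)
    (S : Finset F) (hc : S.card = Q.natDegree) (hS : ∀ x ∈ S, Q.eval x = r) :
    Q - C r = ∏ x ∈ S, (X - C x) := by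
  have hm : (Q - C r).Monic :=
    hQ.sub_of_left (degree_C_le.trans_lt (natDegree_pos_iff_degree_pos.1 hd))
  have hr := roots_eq_of_natDegree_le_card_of_ne_zero (p := Q - C r) (S := S)
    (fun x hx => by simp [hS x hx]) (by rw [natDegree_sub_C, hc]) hm.ne_zero
  have := prod_multiset_X_sub_C_of_monic_of_roots_card_eq hm
    (by rw [hr, natDegree_sub_C, ← hc]; rfl)
  rw [hr] at this
  exact this.symm

lemma pl_eval {F : Type} [Field F] (h2 : (2 : F) = 0) {n : ℕ} {a d u : F} (hdu : d + u ≠ 0)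
    (hu : 1 + u ≠ 0) (hk : d ^ 2 + d = a * (d + u) ^ (2 * n + 2)) :
    ((X + 1) ^ (2 * n) * (X * (X - C (1 / (1 + u)))) : F[X]).eval (d / (d + u))
      = a * u ^ (2 * n + 1) / (1 + u) := by
  have hx1 : d / (d + u) + 1 = u / (d + u) := by
    field_simp
    linear_combination d * h2
  have hx2 : d / (d + u) - 1 / (1 + u) = u * (d - 1) / ((d + u) * (1 + u)) := by
    field_simp
    ring
  have hk' : d * (d - 1) = a * (d + u) ^ (2 * n + 2) := by linear_combination hk - d * h2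
  simp only [eval_mul, eval_pow, eval_add, eval_sub, eval_X, eval_one, eval_C]
  rw [hx1, hx2]
  calc (u / (d + u)) ^ (2 * n) * (d / (d + u) * (u * (d - 1) / ((d + u) * (1 + u))))
      = u ^ (2 * n + 1) * (d * (d - 1)) / ((d + u) ^ (2 * n + 2) * (1 + u)) := by
        rw [div_pow]
        field_simp
        ring
    _ = _ := by
        rw [hk']
        field_simp

theorem pull {F : Type} [Field F] [CharP F 2] {s δ : ℕ} (hs : 1 ≤ s) {E : Finset F}
    (hE : Wd F δ E) {I u : F} (hI : I ≠ 0) (hu0 : u ≠ 0) (hu1 : u ≠ 1) (D : F → Finset F)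
    (hD : ∀ e ∈ E, (D e).card = 2 ^ s ∧
      ∀ d ∈ D e, e * I * d ^ 2 ^ s + d ^ 2 + d = e * I * u ^ 2 ^ s)
    (hO : ∀ W : Finset F, (∀ d ∈ W, d = 1 ∨ ∃ e ∈ E, d ∈ D e) → u * ∑ d ∈ W, d⁻¹ ≠ 1) :
    ∃ E', Wd F (2 ^ s * δ + 1) E' := by
  classical
  obtain ⟨hc, h0, ⟨c, hder⟩, -⟩ := hE
  obtain ⟨n, hn⟩ : ∃ n, 2 ^ s = 2 * n + 2 := by
    obtain ⟨r, rfl⟩ := Nat.exists_eq_add_of_le' hs
    exact ⟨2 ^ r - 1, by have := Nat.one_le_two_pow (n := r); rw [pow_succ]; omega⟩
  have h2 : (2 : F) = 0 := CharTwo.two_eq_zero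
  have hu : 1 + u ≠ 0 := fun h => hu1 (by linear_combination h - h2)
  have he0 : ∀ e ∈ E, e * I ≠ 0 := fun e he => mul_ne_zero (fun h => h0 (h ▸ he)) hI
  have hk : ∀ e ∈ E, ∀ d ∈ D e, d ^ 2 + d = e * I * (d + u) ^ (2 * n + 2) := by
    intro e he d hd
    rw [← hn, add_pow_char_pow]
    linear_combination (hD e he).2 d hd - e * I * d ^ 2 ^ s * h2
  have hd0 : ∀ e ∈ E, ∀ d ∈ D e, d ≠ 0 := by
    rintro e he _ hd rfl
    have := hk e he 0 hd
    rw [zero_add u] at this
    exact mul_ne_zero (he0 e he) (pow_ne_zero _ hu0) (by rw [← this]; simp)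
  have hdu : ∀ e ∈ E, ∀ d ∈ D e, d + u ≠ 0 := by
    intro e he d hd h
    have h1 := hk e he d hd
    rw [h, zero_pow (by omega), mul_zero] at h1
    have h3 : d * (1 + u) = 0 := by linear_combination h1 - d * h + d * u * h2
    exact mul_ne_zero (hd0 e he d hd) hu h3
  have hd1 : ∀ e ∈ E, (1 : F) ∉ D e := by
    intro e he hd
    have h1 := hk e he 1 hd
    exact mul_ne_zero (he0 e he) (pow_ne_zero _ hu) (by rw [← h1]; linear_combination h2)
  have hdisj : Set.PairwiseDisjoint (E : Set F) D := by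
    intro e he e' he' hne
    refine Finset.disjoint_left.2 fun d hd hd' => hne ?_
    have h1 := (hk e he d hd).symm.trans (hk e' he' d hd')
    exact mul_right_cancel₀ hI (mul_right_cancel₀ (pow_ne_zero _ (hdu e he d hd)) h1)
  obtain ⟨A, hA⟩ : ∃ A, A = insert 1 (E.biUnion D) := ⟨_, rfl⟩
  have hAm : ∀ d, d ∈ A ↔ d = 1 ∨ ∃ e ∈ E, d ∈ D e := fun d => by simp [hA]
  have hA0 : ∀ d ∈ A, d ≠ 0 ∧ d + u ≠ 0 := fun d hd => by
    rcases (hAm d).1 hd with rfl | ⟨e, he, hd⟩
    · exact ⟨one_ne_zero, hu⟩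
    · exact ⟨hd0 e he d hd, hdu e he d hd⟩
  have h1A : (1 : F) ∉ E.biUnion D := fun h => by
    obtain ⟨e, he, hd⟩ := Finset.mem_biUnion.1 h
    exact hd1 e he hd
  have hinj : Set.InjOn (fun d : F => d / (d + u)) A := by
    intro d hd d' hd' h
    have h1 := (div_eq_div_iff (hA0 d hd).2 (hA0 d' hd').2).1 h
    exact mul_right_cancel₀ hu0 (by linear_combination h1)
  refine ⟨A.image fun d => d / (d + u), ?_, ?_, ?_, ?_⟩
  · rw [Finset.card_image_of_injOn hinj, hA, Finset.card_insert_of_notMem h1A,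
      Finset.card_biUnion hdisj, Finset.sum_congr rfl fun e he => (hD e he).1]
    simp [hc, mul_comm]
  · intro h
    obtain ⟨d, hd, h⟩ := Finset.mem_image.1 h
    exact div_ne_zero (hA0 d hd).1 (hA0 d hd).2 h
  · obtain ⟨μ, hμ⟩ : ∃ μ, μ = I * u ^ (2 * n + 1) / (1 + u) := ⟨_, rfl⟩
    have hμ0 : μ ≠ 0 := hμ ▸ div_ne_zero (mul_ne_zero hI (pow_ne_zero _ hu0)) hu
    obtain ⟨N, hN⟩ : ∃ N : F[X], N = (X + 1) ^ (2 * n) := ⟨_, rfl⟩
    have hNm : N.Monic := hN ▸ (monic_X_add_C (1 : F)).pow _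
    have hNd : N.natDegree = 2 * n := by
      rw [hN, ← C_1, (monic_X_add_C (1 : F)).natDegree_pow, natDegree_X_add_C, mul_one]
    have hN' : derivative N = 0 := by
      rw [hN, derivative_pow, Nat.cast_mul, Nat.cast_ofNat, h2]
      simp
    obtain ⟨w, hw⟩ : ∃ w, w = 1 / (1 + u) := ⟨_, rfl⟩
    have hm2 : (X * (X - C w) : F[X]).Monic := monic_X.mul (monic_X_sub_C w)
    have hQd : (N * (X * (X - C w))).natDegree = 2 * n + 2 := by
      rw [hNm.natDegree_mul hm2, monic_X.natDegree_mul (monic_X_sub_C w), hNd, natDegree_X,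
        natDegree_X_sub_C]
    have hμ1 : (C μ⁻¹ * C μ : F[X]) = 1 := by rw [← C_mul, inv_mul_cancel₀ hμ0, C_1]
    have hfac : ∀ e ∈ E, C μ⁻¹ * (N * (X * (X - C w))) - C e
        = C μ⁻¹ * ∏ d ∈ D e, (X - C (d / (d + u))) := by
      intro e he
      have hi : Set.InjOn (fun d : F => d / (d + u)) (D e) :=
        hinj.mono fun d hd => (hAm d).2 (Or.inr ⟨e, he, hd⟩)
      have := pl_fac (hNm.mul hm2) (by omega) (e * μ) ((D e).image fun d => d / (d + u))
        (by rw [Finset.card_image_of_injOn hi, hQd, (hD e he).1, hn]) fun x hx => by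
          obtain ⟨d, hd, rfl⟩ := Finset.mem_image.1 hx
          rw [hN, hw, pl_eval h2 (hdu e he d hd) hu (hk e he d hd), hμ]
          ring
      rw [Finset.prod_image hi] at this
      rw [← this, C_mul]
      linear_combination C e * hμ1
    have hcomp : (X * ∏ e ∈ E, (X - C e)).comp (C μ⁻¹ * (N * (X * (X - C w))))
        = C μ⁻¹ ^ (δ + 1) * N * (X * ∏ x ∈ A.image fun d => d / (d + u), (X - C x)) := by
      rw [Finset.prod_image hinj, hA, Finset.prod_insert h1A, Finset.prod_biUnion hdisj,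
        mul_comp, X_comp, Polynomial.prod_comp]
      simp only [sub_comp, X_comp, C_comp]
      rw [Finset.prod_congr rfl hfac, Finset.prod_mul_distrib, Finset.prod_const, hc, ← hw]
      ring
    have h2' : (2 : F[X]) = 0 := by rw [← map_ofNat C 2, h2, C_0]
    have hdc := congrArg derivative hcomp
    rw [derivative_comp, hder, C_comp, derivative_mul (f := C μ⁻¹ ^ (δ + 1) * N), ← C_pow] at hdc
    simp only [derivative_mul, derivative_C, hN', derivative_X, derivative_sub, zero_mul,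
      mul_zero, zero_add, add_zero, one_mul, sub_zero, mul_one] at hdc
    refine ⟨μ ^ (δ + 1) * (μ⁻¹ * -w * c), mul_left_cancel₀
      (mul_ne_zero (C_ne_zero.2 (pow_ne_zero (δ + 1) (inv_ne_zero hμ0))) hNm.ne_zero) ?_⟩
    have hμ2 : (C (μ⁻¹ ^ (δ + 1)) * C (μ ^ (δ + 1)) : F[X]) = 1 := by
      rw [← C_mul, ← mul_pow, inv_mul_cancel₀ hμ0, one_pow, C_1]
    simp only [derivative_mul, derivative_X, one_mul, C_mul, C_neg]
    linear_combination -hdc + C μ⁻¹ * N * X * C c * h2' + C μ⁻¹ * N * C w * C c * hμ2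
  · intro U hU hodd h
    obtain ⟨W, hW, rfl⟩ := Finset.subset_image_iff.1 hU
    have hi : Set.InjOn (fun d : F => d / (d + u)) W := hinj.mono hW
    rw [Finset.card_image_of_injOn hi] at hodd
    rw [Finset.sum_image hi, Finset.sum_congr rfl (g := fun d => 1 + u * d⁻¹) fun d hd => by
      have := hA0 d (hW hd)
      have h1 := this.1
      have h3 := this.2
      field_simp, Finset.sum_add_distrib, ← Finset.mul_sum] at h
    obtain ⟨r, hr⟩ := hodd
    refine hO W (fun d hd => (hAm d).1 (hW hd)) ?_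
    simp only [Finset.sum_const, hr, nsmul_eq_mul, mul_one] at h
    push_cast at h
    linear_combination h - (r + 1) * h2

end Pool.Agent.Lib.MP_587b89_lc.Lin
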