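import Pool.Agent.Lib.MP_587b89_lc.Lin.Inf

/-!
The splitting field of finitely many equations `P(x) = c t` over the rational function field.
-/

set_option autoImplicit false
set_option linter.unusedSectionVars false
set_option linter.overlappingInstances false
open Polynomial Module

namespace Pool.Agent.Lib.MP_587b89_lc.Lin

/-- an odd-independent word: a set of `δ` nonzero points whose locator has constant derivative -/
def Wd (F : Type) [Field F] (δ : ℕ) (E : Finset F) : Prop :=
  E.card = δ ∧ (0 : F) ∉ E ∧ (∃ c : F, derivative (X * ∏ e ∈ E, (X - C e)) = C c) ∧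
    ∀ U ⊆ E, Odd U.card → ∑ e ∈ U, e⁻¹ ≠ 0

variable {k : Type} [Field k] (U : Type) [Field U] [Algebra k[X] U] [Algebra k U]
  [IsScalarTower k k[X] U] [Algebra (FractionRing k[X]) U]
  [IsScalarTower k[X] (FractionRing k[X]) U] [IsScalarTower k (FractionRing k[X]) U]
  {ι : Type} [Fintype ι] (P : ι → k[X]) (c : ι → k)

/-- the polynomial `P(Y) - c t` -/
noncomputable def fK (P : k[X]) (c : k) : (FractionRing k[X])[X] :=
  P.map (algebraMap k _) - C (algebraMap k[X] _ (C c * X))

/-- the field generated by the roots -/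
noncomputable def Lf : IntermediateField (FractionRing k[X]) U :=
  IntermediateField.adjoin (FractionRing k[X]) (⋃ i, (fK (P i) (c i)).rootSet U)

instance : IsScalarTower k k[X] (Lf U P c) :=
  IsScalarTower.of_algebraMap_eq fun a => Subtype.ext (IsScalarTower.algebraMap_apply k k[X] U a)

instance : IsScalarTower k (Lf U P c) U := IsScalarTower.of_algebraMap_eq fun _ => rfl

instance : IsScalarTower k[X] (Lf U P c) U := IsScalarTower.of_algebraMap_eq fun _ => rfl

variable {U}

lemma aeval_fK (P : k[X]) (c : k) (x : U) :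
    aeval x (fK P c) = aeval x P - algebraMap k U c * algebraMap k[X] U X := by
  rw [fK, map_sub, aeval_map_algebraMap, aeval_C, ← IsScalarTower.algebraMap_apply, map_mul,
    IsScalarTower.algebraMap_apply k k[X] U]
  rfl

lemma natDegree_fK (P : k[X]) (c : k) : (fK P c).natDegree = P.natDegree := by
  rw [fK, natDegree_sub_C, natDegree_map]

lemma fK_ne {P : k[X]} (h : 1 ≤ P.natDegree) (c : k) : fK P c ≠ 0 := fun e => by
  rw [← natDegree_fK P c, e] at h
  simp at h

lemma mem_rootSet_fK {P : k[X]} (h : 1 ≤ P.natDegree) (c : k) (x : U) :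
    x ∈ (fK P c).rootSet U ↔ aeval x P = algebraMap k U c * algebraMap k[X] U X := by
  rw [mem_rootSet_of_ne (fK_ne h c), aeval_fK, sub_eq_zero]

variable {P c}

lemma mem_Lf (hd : ∀ i, 1 ≤ (P i).natDegree) {i : ι} {x : U}
    (hx : aeval x (P i) = algebraMap k U (c i) * algebraMap k[X] U X) : x ∈ Lf U P c :=
  IntermediateField.subset_adjoin _ _ (Set.mem_iUnion.2 ⟨i, (mem_rootSet_fK (hd i) _ _).2 hx⟩)

lemma root_coe {P' : k[X]} {c' : k} (x : Lf U P c) :
    aeval x P' = algebraMap k (Lf U P c) c' * algebraMap k[X] (Lf U P c) X ↔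
      aeval (x : U) P' = algebraMap k U c' * algebraMap k[X] U X := by
  rw [← Subtype.coe_inj, ← IntermediateField.algebraMap_apply (S := Lf U P c) x,
    aeval_algebraMap_apply]
  rfl

variable [IsAlgClosed U]

lemma fd_Lf : FiniteDimensional (FractionRing k[X]) (Lf U P c) := by
  have hsp : ∀ i, IsSplittingField (FractionRing k[X]) (IntermediateField.adjoin
      (FractionRing k[X]) ((fK (P i) (c i)).rootSet U)) (fK (P i) (c i)) :=
    fun a => IntermediateField.adjoin_rootSet_isSplittingField (IsAlgClosed.splits _)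
  have hfd := fun i => IsSplittingField.finiteDimensional (IntermediateField.adjoin
    (FractionRing k[X]) ((fK (P i) (c i)).rootSet U)) (fK (P i) (c i))
  rw [Lf, IntermediateField.adjoin_iUnion]; infer_instance

lemma gal_Lf (hs : ∀ i, (fK (P i) (c i)).Separable) : IsGalois (FractionRing k[X]) (Lf U P c) := by
  have hsp : ∀ i, IsSplittingField (FractionRing k[X]) (IntermediateField.adjoin
      (FractionRing k[X]) ((fK (P i) (c i)).rootSet U)) (fK (P i) (c i)) :=
    fun a => IntermediateField.adjoin_rootSet_isSplittingField (IsAlgClosed.splits _)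
  have hgal := fun i => IsGalois.of_separable_splitting_field (hs i) (E :=
    IntermediateField.adjoin (FractionRing k[X]) ((fK (P i) (c i)).rootSet U))
  rw [Lf, IntermediateField.adjoin_iUnion]
  exact { }

/-- the roots generate -/
lemma adjoin_Lf (hd : ∀ i, 1 ≤ (P i).natDegree) : Algebra.adjoin (FractionRing k[X])
    {x : Lf U P c | ∃ i, aeval x (P i) =
      algebraMap k (Lf U P c) (c i) * algebraMap k[X] (Lf U P c) X} = ⊤ := by
  have := fd_Lf (U := U) (P := P) (c := c)
  rw [← IntermediateField.adjoin_toSubalgebra_of_isAlgebraic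
    fun x _ => Algebra.IsAlgebraic.isAlgebraic x, ← IntermediateField.top_toSubalgebra]
  congr 1
  apply IntermediateField.lift_injective
  rw [IntermediateField.lift_adjoin, IntermediateField.lift_top]
  conv_rhs => rw [Lf]
  congr 1
  ext x
  simp only [Set.mem_image, Set.mem_ofPred_eq, Set.mem_iUnion, mem_rootSet_fK (hd _), root_coe]
  exact ⟨fun ⟨y, hy, e⟩ => e ▸ hy, fun ⟨i, hi⟩ => ⟨⟨x, mem_Lf hd hi⟩, ⟨i, hi⟩, rfl⟩⟩

lemma aut_ext (hd : ∀ i, 1 ≤ (P i).natDegree)
    {σ τ : Lf U P c ≃ₐ[FractionRing k[X]] Lf U P c} (h : ∀ i (x : Lf U P c), aeval x (P i) =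
      algebraMap k (Lf U P c) (c i) * algebraMap k[X] (Lf U P c) X → σ x = τ x) : σ = τ :=
  AlgEquiv.coe_toAlgHom_injective (AlgHom.ext_of_adjoin_eq_top (adjoin_Lf hd)
    fun x ⟨i, hi⟩ => h i x hi)

lemma span_Lf {M : ℕ} (hd : ∀ i, 1 ≤ (P i).natDegree) (hM : ∀ i, (P i).natDegree ≤ M) :
    Submodule.span (FractionRing k[X])
      {x : Lf U P c | Sm k (Fintype.card ι * M * M) x} = ⊤ := by
  classical
  let S : Finset (Lf U P c) := Finset.univ.biUnion fun i =>
    ((fK (P i) (c i)).aroots (Lf U P c)).toFinset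
  have hS : ∀ x, x ∈ S ↔ ∃ i, aeval x (P i) =
      algebraMap k (Lf U P c) (c i) * algebraMap k[X] (Lf U P c) X := fun x => by
    simp only [S, Finset.mem_biUnion, Finset.mem_univ, true_and, Multiset.mem_toFinset,
      mem_aroots, aeval_fK, sub_eq_zero, fK_ne (hd _), ne_eq, not_false_eq_true]
  have h1 := span_top (k := k) S (M := M)
    (fun x hx => by obtain ⟨i, hi⟩ := (hS x).1 hx; exact sm_root (hd i) hi)
    (fun x hx => by
      obtain ⟨i, hi⟩ := (hS x).1 hx
      refine (natDegree_le_of_dvd (minpoly.dvd _ x ?_) (fK_ne (hd i) (c i))).trans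
        ((natDegree_fK _ _).trans_le (hM i))
      rw [aeval_fK, hi, sub_self])
    (by rw [← adjoin_Lf hd]; congr 1; ext x; exact hS x)
  have h2 : S.card ≤ Fintype.card ι * M := by
    refine Finset.card_biUnion_le.trans ((Finset.sum_le_card_nsmul _ _ M fun i _ => ?_).trans
      (by simp))
    exact (Multiset.toFinset_card_le _).trans ((card_roots' _).trans
      (natDegree_map_le.trans ((natDegree_fK _ _).trans_le (hM i))))
  rw [eq_top_iff, ← h1]
  exact Submodule.span_mono fun x hx => Sm.mono (Nat.mul_le_mul_right _ h2) hx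

end Pool.Agent.Lib.MP_587b89_lc.Lin
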