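import Pool.Agent.Lib.MP_587b89_lc.Lin.Vs
import Pool.Agent.Lib.MP_587b89_lc.Lin.Loc
import Pool.Agent.Lib.MP_587b89_lc.Lin.Grp

/-!
Simultaneous splitting of the additive trinomials.
-/

set_option autoImplicit false
set_option linter.unusedSectionVars false
set_option linter.overlappingInstances false
open Polynomial Module

namespace Pool.Agent.Lib.MP_587b89_lc.Lin

section
variable {k : Type} [Field k] {U : Type} [Field U] [Algebra k[X] U] [Algebra k U]
  [IsScalarTower k k[X] U] [Algebra (FractionRing k[X]) U]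
  [IsScalarTower k[X] (FractionRing k[X]) U] [IsScalarTower k (FractionRing k[X]) U]

lemma frac_mem (τ : k →+* k) (Ψ : U →+* U)
    (hΨ : ∀ r : k[X], Ψ (algebraMap k[X] U r) = algebraMap k[X] U (r.map τ))
    (a : FractionRing k[X]) : ∃ b, Ψ (algebraMap _ U a) = algebraMap (FractionRing k[X]) U b := by
  obtain ⟨r, s, -, rfl⟩ := IsFractionRing.div_surjective (A := k[X]) a
  refine ⟨algebraMap k[X] _ (r.map τ) / algebraMap k[X] _ (s.map τ), ?_⟩
  simp only [map_div₀, ← IsScalarTower.algebraMap_apply, hΨ]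

lemma frac_fix (Ψ : U →+* U) (hΨ : ∀ r : k[X], Ψ (algebraMap k[X] U r) = algebraMap k[X] U r)
    (a : FractionRing k[X]) : Ψ (algebraMap _ U a) = algebraMap (FractionRing k[X]) U a := by
  obtain ⟨r, s, -, rfl⟩ := IsFractionRing.div_surjective (A := k[X]) a
  simp only [map_div₀, ← IsScalarTower.algebraMap_apply, hΨ]

lemma poly_map (τ : k →+* k) (Ψ : U →+* U)
    (h1 : ∀ c, Ψ (algebraMap k U c) = algebraMap k U (τ c))
    (h2 : Ψ (algebraMap k[X] U X) = algebraMap k[X] U X) (r : k[X]) :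
    Ψ (algebraMap k[X] U r) = algebraMap k[X] U (r.map τ) := by
  have : Ψ.comp (algebraMap k[X] U) = (algebraMap k[X] U).comp (mapRingHom τ) := by
    refine Polynomial.ringHom_ext (fun a => ?_) (by simp [h2])
    simp only [RingHom.comp_apply, coe_mapRingHom, map_C]
    rw [← algebraMap_eq, ← IsScalarTower.algebraMap_apply, ← IsScalarTower.algebraMap_apply, h1]
  exact RingHom.congr_fun this r

variable {ι : Type} [Fintype ι] {n : ℕ} {c : ι → k}

lemma stab (τ : k →+* k) (Ψ : U →+* U)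
    (hΨ : ∀ r : k[X], Ψ (algebraMap k[X] U r) = algebraMap k[X] U (r.map τ))
    (hc : ∀ i, Ψ (algebraMap k U (c i) * algebraMap k[X] U X) =
      algebraMap k U (c i) * algebraMap k[X] U X) :
    ∀ y ∈ Lf U (fun _ => Pn k n) c, Ψ y ∈ Lf U (fun _ => Pn k n) c := by
  have hd : ∀ _ : ι, 1 ≤ (Pn k n).natDegree := fun _ => by rw [natDegree_Pn]; omega
  intro y hy
  induction hy using IntermediateField.adjoin_induction with
  | mem y hy =>
    obtain ⟨i, hi⟩ := Set.mem_iUnion.1 hy
    rw [mem_rootSet_fK (hd i), aeval_Pn] at hi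
    refine mem_Lf hd (i := i) ?_
    rw [aeval_Pn, ← hc, ← hi, map_add, map_pow, map_pow]
  | algebraMap a =>
    obtain ⟨b, hb⟩ := frac_mem τ Ψ hΨ a
    rw [hb]
    exact IntermediateField.algebraMap_mem _ _
  | add y z _ _ h1 h2 => rw [map_add]; exact add_mem h1 h2
  | inv y _ h1 => rw [map_inv₀]; exact IntermediateField.inv_mem _ h1
  | mul y z _ _ h1 h2 => rw [map_mul]; exact mul_mem h1 h2

variable [IsAlgClosed U] [CharP k 2]

lemma roots_Lf (hc : ∀ i, c i ≠ 0) (i : ι) : ∃ R : Finset (Lf U (fun _ => Pn k n) c),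
    R.card = 2 * n + 1 ∧ (∀ x, x ∈ R ↔ x ^ (2 * n + 1) + x ^ (2 * n) =
      algebraMap k _ (c i) * algebraMap k[X] _ X) ∧ ∀ y : Lf U (fun _ => Pn k n) c,
      ∏ x ∈ R, (y - x) = y ^ (2 * n + 1) + y ^ (2 * n) -
        algebraMap k _ (c i) * algebraMap k[X] _ X := by
  classical
  have hd : 1 ≤ (Pn k n).natDegree := by rw [natDegree_Pn]; omega
  have hsp : ((fK (Pn k n) (c i)).map (algebraMap _ (Lf U (fun _ => Pn k n) c))).Splits :=
    IntermediateField.splits_of_splits (IsAlgClosed.splits _) fun x hx =>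
      IntermediateField.subset_adjoin _ _ (Set.mem_iUnion.2 ⟨i, hx⟩)
  have hnd := nodup_roots ((sep_Pn (n := n) (hc i)).map
    (f := algebraMap _ (Lf U (fun _ => Pn k n) c)))
  have hm : (fK (Pn k n) (c i)).Monic := (monic_Pn.map _).sub_of_left
    (degree_C_le.trans_lt (natDegree_pos_iff_degree_pos.1 (by rwa [natDegree_map])))
  refine ⟨((fK (Pn k n) (c i)).aroots _).toFinset, ?_, fun x => ?_, fun y => ?_⟩
  · rw [Multiset.toFinset_card_of_nodup hnd, ← hsp.natDegree_eq_card_roots, natDegree_map,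
      natDegree_fK, natDegree_Pn]
  · rw [Multiset.mem_toFinset, mem_aroots, aeval_fK, aeval_Pn, sub_eq_zero,
      and_iff_right (fK_ne hd _)]
  · rw [← aeval_Pn (k := k), ← aeval_fK, ← eval_map_algebraMap,
      hsp.eval_eq_prod_roots_of_monic (hm.map _), Finset.prod_eq_multiset_prod,
      Multiset.toFinset_val, hnd.dedup]

end

theorem stepI_core {F k K1 U : Type} [Field F] [Fintype F] [CharP F 2] [Field k] [IsAlgClosed k]
    [CharP k 2] [Algebra F k] [Field K1] [Algebra (PowerSeries k) K1]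
    [IsFractionRing (PowerSeries k) K1] [Field U] [IsAlgClosed U] [Algebra K1 U] [Normal K1 U]
    [Algebra k[X] U] [Algebra k U] [IsScalarTower k k[X] U] [Algebra (FractionRing k[X]) U]
    [IsScalarTower k[X] (FractionRing k[X]) U] [IsScalarTower k (FractionRing k[X]) U]
    {m n j : ℕ} (hF : Fintype.card F = 2 ^ m) (hn : 1 ≤ n) (hj : n + 1 = 2 ^ j)
    (φ : PowerSeries k →+* U) (hφ : ∀ p, φ p = algebraMap K1 U (algebraMap _ K1 p))
    (hk : ∀ c, algebraMap k U c = φ (PowerSeries.C c)) (hX : algebraMap k[X] U X = φ tt ^ n)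
    (Φ : U →+* U) (hΦ : ∀ p, Φ (φ p) = φ (PowerSeries.map (iterateFrobenius k 2 m) p))
    (E : Finset F) (hE0 : (0 : F) ∉ E) (hO : ∀ W ⊆ E, Odd W.card → ∑ e ∈ W, e⁻¹ ≠ 0) {a b : ℕ}
    (ha : ((j + 1) ^ 2 - 1) * E.card ≤ a) (hb : E.card * (2 * n + 1) * (2 * n + 1) ≤ 2 ^ b)
    (hm : 4 * a + 2 * b + 8 ≤ m) :
    ∃ t : k, t ≠ 0 ∧ t ^ 2 ^ m = t ∧ ∀ e ∈ E, ∀ y : k,
      y ^ (2 * n + 1) + y ^ (2 * n) = algebraMap F k e * t → y ^ 2 ^ m = y := by
  classical
  let c : E → k := fun e => algebraMap F k e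
  have hc : ∀ e, c e ≠ 0 := fun e => (_root_.map_ne_zero _).2 fun h => hE0 (h ▸ e.2)
  have hd : ∀ _ : E, 1 ≤ (Pn k n).natDegree := fun _ => by rw [natDegree_Pn]; omega
  have hφi : Function.Injective φ := fun p q h => by
    rw [hφ, hφ] at h
    exact IsFractionRing.injective _ K1 ((algebraMap K1 U).injective h)
  have hfr : ∀ e : F, iterateFrobenius k 2 m (algebraMap F k e) = algebraMap F k e := fun e => by
    rw [iterateFrobenius_def, ← map_pow, ← hF, FiniteField.pow_card]
  have hΦF : ∀ p : PowerSeries F, Φ (φ (PowerSeries.map (algebraMap F k) p)) =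
      φ (PowerSeries.map (algebraMap F k) p) := fun p => by
    rw [hΦ]
    congr 1
    ext i
    simp [hfr]
  have hΦt : Φ (φ tt) = φ tt := by rw [hΦ, PowerSeries.map_X]
  have hΦX := poly_map (iterateFrobenius k 2 m) Φ
    (fun c => by rw [hk, hk, hΦ, PowerSeries.map_C]) (by rw [hX, map_pow, hΦt])
  have hΦc : ∀ e, Φ (algebraMap k U (c e) * algebraMap k[X] U X) =
      algebraMap k U (c e) * algebraMap k[X] U X := fun e => by
    rw [map_mul, hX, map_pow, hΦt, hk, hΦ, PowerSeries.map_C, hfr]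
  have hst := stab (n := n) _ Φ hΦX hΦc
  have hfd := fd_Lf (U := U) (P := fun _ => Pn k n) (c := c)
  have hgal := gal_Lf (U := U) (P := fun _ => Pn k n) (c := c) fun e => sep_Pn (hc e)
  choose R hR hR' hR'' using roots_Lf (U := U) (n := n) hc
  have : CharP U 2 := charP_of_injective_algebraMap (algebraMap k U).injective 2
  have : CharP K1 2 := (algebraMap K1 U).charP (algebraMap K1 U).injective 2
  have : CharP (Lf U (fun _ => Pn k n) c) 2 :=
    charP_of_injective_algebraMap (algebraMap k _).injective 2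
  let _ : Module (ZMod 2) (Lf U (fun _ => Pn k n) c) := (ZMod.algebra _ 2).toModule
  let _ : Module (ZMod 2) U := (ZMod.algebra _ 2).toModule
  let ΦL : Lf U (fun _ => Pn k n) c →+* Lf U (fun _ => Pn k n) c := Φ.restrict _ _ hst
  let A : E → Lf U (fun _ => Pn k n) c := fun e => algebraMap k _ (c e) * algebraMap k[X] _ X
  have hAU : ∀ e, (A e : U) = φ (PowerSeries.C (c e) * tt ^ n) := fun e => by
    rw [map_mul, map_pow, ← hk, ← hX]; rfl
  have hA0 : ∀ e, A e ≠ 0 := fun e h => by
    have h1 := hAU e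
    rw [h, ZeroMemClass.coe_zero, eq_comm, map_eq_zero_iff _ hφi] at h1
    exact mul_ne_zero ((map_ne_zero_iff _ PowerSeries.C_injective).2 (hc e))
      (pow_ne_zero _ PowerSeries.X_ne_zero) h1
  have hV := fun e => finrank_Vs (card_Vs hn hj (hA0 e) (R e) (hR e) (hR' e))
  have := fun e => (hV e).1
  have hσA : ∀ (σ : Lf U (fun _ => Pn k n) c ≃ₐ[FractionRing k[X]] Lf U (fun _ => Pn k n) c) e,
      σ (A e) = A e := fun σ e => by
    simp only [A]
    rw [IsScalarTower.algebraMap_apply k (FractionRing k[X]),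
      IsScalarTower.algebraMap_apply k[X] (FractionRing k[X]), map_mul, σ.commutes, σ.commutes]
  let ρ : ∀ e, (Lf U (fun _ => Pn k n) c ≃ₐ[FractionRing k[X]] Lf U (fun _ => Pn k n) c) →*
      Module.End (ZMod 2) (Vs (A e) (j + 1)) := fun e =>
    { toFun := fun σ => res (j + 1) (σ : _ →+* _) (hσA σ e)
      map_one' := rfl
      map_mul' := fun _ _ => rfl }
  have hx0 : ∀ e, ∀ x ∈ R e, x ≠ 0 := fun e x hx h => hA0 e (by
    simp only [A]
    rw [← (hR' e x).1 hx, h, zero_pow (by omega), zero_pow (by omega), add_zero])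
  have hD : finrank (FractionRing k[X]) (Lf U (fun _ => Pn k n) c) ≤ 2 ^ a := by
    rw [← IsGalois.card_aut_eq_finrank]
    refine (card_le (by omega) (fun e => (hV e).2) ρ fun g hg => aut_ext hd fun e x hx => ?_).trans
      (Nat.pow_le_pow_right (by norm_num) (by rwa [Fintype.card_coe]))
    rw [aeval_Pn] at hx
    have h0 := hx0 e x ((hR' e x).2 hx)
    have h1 : g x⁻¹ = x⁻¹ := congrArg Subtype.val (hg e ⟨x⁻¹, (inv_mem_Vs hj h0).2 hx⟩)
    rw [map_inv₀, inv_inj] at h1
    exact h1
  have hres : ∀ g : U ≃ₐ[K1] U, ∃ σ : Lf U (fun _ => Pn k n) c ≃ₐ[FractionRing k[X]]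
      Lf U (fun _ => Pn k n) c, ∀ x, (σ x : U) = g x := fun g => by
    have h1 : ∀ p, g (φ p) = φ p := fun p => by rw [hφ, g.commutes]
    have h2 := frac_fix (k := k) (g : U →+* U) fun r => by
      rw [poly_map (RingHom.id k) (g : U →+* U) (fun c => by rw [RingHom.id_apply, hk]; exact h1 _)
        (by rw [hX, map_pow]; exact congrArg (· ^ n) (h1 _)), Polynomial.map_id]
    exact ⟨(AlgEquiv.ofRingEquiv (f := (g : U ≃+* U)) h2).restrictNormal _,
      fun x => AlgEquiv.restrictNormal_commutes _ _ x⟩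
  choose x hx1 hx using fun e : E => exists_x hn (e : F)
  let y : E → U := fun e => φ (PowerSeries.map (algebraMap F k) (x e))
  have hxk1 : ∀ e, cc (PowerSeries.map (algebraMap F k) (x e)) = 1 := fun e => by
    rw [← PowerSeries.coeff_zero_eq_constantCoeff_apply, PowerSeries.coeff_map,
      PowerSeries.coeff_zero_eq_constantCoeff_apply, hx1, map_one]
  have hxk : ∀ e, PowerSeries.map (algebraMap F k) (x e) ^ (2 * n + 1) +
      PowerSeries.map (algebraMap F k) (x e) ^ (2 * n) = PowerSeries.C (c e) * tt ^ n := fun e => by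
    rw [← map_pow, ← map_pow, ← map_add, hx, map_mul, map_pow, PowerSeries.map_C, PowerSeries.map_X]
  have hyk : ∀ e, y e ^ (2 * n + 1) + y e ^ (2 * n) = φ (PowerSeries.C (c e) * tt ^ n) :=
    fun e => by rw [← hxk, map_add, map_pow, map_pow]
  have hy0 : ∀ e, y e ≠ 0 := fun e h => by
    have h1 := hxk1 e
    rw [(map_eq_zero_iff _ hφi).1 h, map_zero] at h1
    exact zero_ne_one h1
  have hyK : ∀ (g : U ≃ₐ[K1] U) e, g (y e) = y e := fun g e => by
    simp only [y]
    rw [hφ, g.commutes]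
  have hdU : ∀ e (d : Vs (A e) (j + 1)), φ (PowerSeries.C (c e) * tt ^ n) *
      ((d : Lf U (fun _ => Pn k n) c) : U) ^ 2 ^ (j + 1) + ((d : Lf U (fun _ => Pn k n) c) : U) ^ 2 +
      ((d : Lf U (fun _ => Pn k n) c) : U) = 0 := fun e d => by
    rw [← hAU]
    exact_mod_cast congrArg Subtype.val (mem_Vs.1 d.2)
  let ζ : ∀ e, Vs (A e) (j + 1) →+ U := fun e => AddMonoidHom.mk'
    (fun d => ((d : Lf U (fun _ => Pn k n) c) : U) * y e) fun d d' => by
      push_cast; ring
  have hloc : ∀ e d, ∃ w, φ tt * (ζ e d ^ 2 + ζ e d) = φ w ∧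
      cc w ^ 2 ^ j + (c e)⁻¹ * cc w = 0 ∧ (cc w = 0 → ζ e d = 0 ∨ ζ e d = 1) := fun e d =>
    loc hn hj (hc e) (hxk1 e) (hxk e) φ hφi (hdU e d)
  have ht0 : φ tt ≠ 0 := (map_ne_zero_iff _ hφi).2 PowerSeries.X_ne_zero
  have hζK : ∀ e d, ζ e d ^ 2 + ζ e d ∈ (algebraMap K1 U).range := fun e d => by
    obtain ⟨w, hw, -⟩ := hloc e d
    refine ⟨algebraMap _ K1 w / algebraMap _ K1 (tt : PowerSeries k), ?_⟩
    rw [map_div₀, ← hφ, ← hφ, ← hw, mul_div_cancel_left₀ _ ht0]
  have key : ∃ g : Lf U (fun _ => Pn k n) c ≃ₐ[FractionRing k[X]] Lf U (fun _ => Pn k n) c,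
      ∀ e (d : Vs (A e) (j + 1)), g d = ΦL d := by
    rcases (show j = 1 ∨ 2 ≤ j by
      rcases j with _ | _ | j
      · simp at hj; omega
      · exact Or.inl rfl
      · omega) with rfl | hj2
    · obtain rfl : n = 1 := by omega
      let Z : (∀ e, Vs (A e) (1 + 1)) →+ U := AddMonoidHom.mk' (fun d => ∑ e, ζ e (d e))
        fun d d' => by simp [Finset.sum_add_distrib]
      have h2 : (2 : U) = 0 := CharTwo.two_eq_zero
      have hZ : ∀ d, Z d ^ 2 + Z d = ∑ e, (ζ e (d e) ^ 2 + ζ e (d e)) := fun d => by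
        rw [Finset.sum_add_distrib, ← sum_pow_char]; rfl
      have hfix : ∀ e d, Φ (ζ e d ^ 2 + ζ e d) = ζ e d ^ 2 + ζ e d := fun e d => by
        have h3 := loc_eq (n := 1) (j := 1) (by norm_num) (hyk e) (hdU e d)
        rw [Finset.sum_range_one] at h3
        change _ * (ζ e d ^ 2 + ζ e d) ^ _ + _ * (ζ e d ^ 2 + ζ e d) = 0 at h3
        generalize ζ e d ^ 2 + ζ e d = Y at h3
        rcases eq_or_ne Y 0 with rfl | h0
        · exact map_zero _
        have h4 : (A e : U) * Y = y e ^ 3 := mul_right_cancel₀ h0 (by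
          rw [hAU]; linear_combination h3 - y e ^ 3 * Y * h2)
        have h5 := congrArg Φ h4
        rw [map_mul, map_pow, hΦF, show Φ (A e : U) = A e from hΦc e, ← h4] at h5
        exact mul_left_cancel₀ (fun h => hA0 e (Subtype.ext h)) h5
      obtain ⟨l, hl⟩ := exists_dual (AddMonoidHom.mk' (fun d => Φ (Z d) - Z d)
        fun d d' => by rw [map_add, map_add]; ring) fun d => by
          have h3 : Φ (Z d ^ 2 + Z d) = Z d ^ 2 + Z d := by
            rw [hZ, map_sum]; exact Finset.sum_congr rfl fun e _ => hfix e _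
          rw [map_add, map_pow] at h3
          have h4 : (Φ (Z d) - Z d) * (Φ (Z d) - Z d - 1) = 0 := by
            linear_combination h3 + (Z d ^ 2 + Z d - Φ (Z d) - Φ (Z d) * Z d) * h2
          exact (mul_eq_zero.1 h4).imp id sub_eq_zero.1
      obtain ⟨g, hg⟩ := as_dual Z (fun d => by
        rw [hZ]; exact Subring.sum_mem _ fun e _ => hζK e _) l fun d hd' => by
          obtain ⟨p, hp⟩ := two_case (algebraMap F k) E hE0 hO x hx1 hx
            (φ.comp (PowerSeries.map (algebraMap F k))) (fun p => hφ _)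
            (fun e => ((d e : Lf U (fun _ => Pn k 1) c) : U)) (fun e => by
              rw [RingHom.comp_apply, map_mul, map_pow, PowerSeries.map_C, PowerSeries.map_X]
              exact hdU e _) hd'
          have h3 : Z d = φ (PowerSeries.map (algebraMap F k) p) := hp.symm
          have h4 := hl d
          change _ = Φ (Z d) - Z d at h4
          rw [h3, hΦF, sub_self] at h4
          rcases z2 (l d) with h | h
          · exact h
          · rw [h, ZMod.val_one, Nat.cast_one] at h4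
            exact absurd h4 one_ne_zero
      obtain ⟨σ, hσ⟩ := hres g
      refine ⟨σ, fun e d => Subtype.ext ?_⟩
      have h3 := hg (Pi.single e d)
      have h4 : Z (Pi.single e d) = ζ e d := by
        show ∑ e', ζ e' (Pi.single (M := fun e => Vs (A e) (1 + 1)) e d e') = _
        rw [Finset.sum_eq_single e (fun e' _ h => by rw [Pi.single_eq_of_ne h, map_zero])
          (by simp), Pi.single_eq_same]
      rw [hl] at h3
      change g (Z (Pi.single e d)) = Z (Pi.single e d) + (Φ (Z (Pi.single e d)) - Z (Pi.single e d))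
        at h3
      rw [h4, add_sub_cancel] at h3
      change g (_ * y e) = Φ (_ * y e) at h3
      rw [map_mul, map_mul, hyK, hΦF] at h3
      rw [hσ]
      exact mul_right_cancel₀ (hy0 e) h3
    · have hyL : ∀ e, y e ∈ Lf U (fun _ => Pn k n) c := fun e => mem_Lf hd (i := e) (by
        rw [aeval_Pn, hyk, ← hAU]; rfl)
      have hv : ∀ e, ∃ v : Vs (A e) (j + 1), ζ e v = 1 := fun e =>
        ⟨⟨(⟨y e, hyL e⟩ : Lf U (fun _ => Pn k n) c)⁻¹, (inv_mem_Vs hj
          (fun h => hy0 e (congrArg Subtype.val h))).2 (Subtype.ext (by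
            rw [hAU, ← hyk]; rfl))⟩, inv_mul_cancel₀ (hy0 e)⟩
      choose v hv using hv
      have hζi : ∀ e, Function.Injective (ζ e) := fun e d d' h =>
        Subtype.ext (Subtype.ext (mul_right_cancel₀ (hy0 e) h))
      have hkill : ∀ e (l : Module.Dual (ZMod 2) (Vs (A e) (j + 1))), l (v e) = 0 → ∀ d,
          ζ e d = 0 ∨ ζ e d = 1 → l d = 0 := fun e l hl d h => by
        rcases h with h | h
        · rw [hζi e (h.trans (map_zero _).symm), map_zero]
        · rw [hζi e (h.trans (hv e).symm), hl]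
      have hact : ∀ (g : U ≃ₐ[K1] U) (σ : Lf U (fun _ => Pn k n) c ≃ₐ[FractionRing k[X]]
          Lf U (fun _ => Pn k n) c), (∀ x, (σ x : U) = g x) → ∀ e d (r : ZMod 2),
          g (ζ e d) = ζ e d + (r.val : U) → ρ e σ d = d + r • v e := fun g σ hσ e d r h => by
        apply hζi e
        rw [map_add]
        have h1 : ζ e (ρ e σ d) = g (ζ e d) := by
          change (σ d : U) * y e = g (_ * y e)
          rw [map_mul, hyK, hσ]
        rw [h1, h]
        rcases z2 r with rfl | rfl
        · simp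
        · rw [one_smul, hv, ZMod.val_one, Nat.cast_one]
      obtain ⟨g, hg⟩ := ribet (fun e => by rw [(hV e).2]; omega) ρ (fun e u u' hu hu' => by
        have h1 : ∀ u : Vs (A e) (j + 1), u ≠ 0 → minpoly (FractionRing k[X])
            (u : Lf U (fun _ => Pn k n) c)⁻¹ = fK (Pn k n) (c e) := fun u hu => by
          refine (minpoly.eq_of_irreducible_of_monic (irr_fK monic_Pn (hd e) (hc e)) ?_
            ((monic_Pn.map _).sub_of_left (degree_C_le.trans_lt
              (natDegree_pos_iff_degree_pos.1 (by rw [natDegree_map]; exact hd e))))).symm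
          rw [aeval_fK, aeval_Pn, sub_eq_zero]
          exact (inv_mem_Vs hj (inv_ne_zero fun h => hu (Subtype.ext h))).1 (by
            rw [inv_inv]; exact u.2)
        obtain ⟨σ, hσ⟩ := minpoly.exists_algEquiv_of_root (K := FractionRing k[X])
          (x := (u : Lf U (fun _ => Pn k n) c)⁻¹) (y := (u' : Lf U (fun _ => Pn k n) c)⁻¹)
          (Algebra.IsAlgebraic.isAlgebraic _) (by rw [h1 u' hu', ← h1 u hu]; exact minpoly.aeval _ _)
        rw [map_inv₀, inv_inj] at hσ
        exact ⟨σ, Subtype.ext hσ⟩) (fun e e' => ⟨v e, fun h => by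
          have := hv e
          rw [h, map_zero] at this
          exact zero_ne_one this, fun l hl => by
        rcases eq_or_ne e' e with rfl | hne
        · obtain ⟨g, hg⟩ := as_dual (ζ e') (hζK e') l fun d hd' => by
            obtain ⟨w, hw, -, hw2⟩ := hloc e' d
            exact hkill e' l hl d (hw2 (not_as hd' (by rw [← hφ, ← hφ]; exact hw)))
          obtain ⟨σ, hσ⟩ := hres g
          exact ⟨σ, fun u => hact g σ hσ e' u _ (hg u), fun h => absurd rfl h⟩
        · have hsq : ∀ p q : U, (p + q) ^ 2 + (p + q) = (p ^ 2 + p) + (q ^ 2 + q) := fun p q => by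
            rw [add_pow_char]; ring
          obtain ⟨g, hg⟩ := as_dual ((ζ e).coprod (ζ e')) (fun d => by
            rw [AddMonoidHom.coprod_apply, hsq]
            exact add_mem (hζK e _) (hζK e' _)) (l.comp (LinearMap.fst _ _ _)) fun d hd' => by
              obtain ⟨w, hw, hw1, hw2⟩ := hloc e d.1
              obtain ⟨w', hw', hw1', -⟩ := hloc e' d.2
              have h1 := not_as hd' (w := w + w') (by
                rw [← hφ, ← hφ, AddMonoidHom.coprod_apply, hsq, mul_add, hw, hw', map_add])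
              rw [map_add, CharTwo.add_eq_zero] at h1
              refine hkill e l hl d.1 (hw2 ?_)
              by_contra h0
              rw [← h1] at hw1'
              have h3 : (c e)⁻¹ = (c e')⁻¹ := mul_right_cancel₀ h0 (by linear_combination hw1 - hw1')
              exact hne (Subtype.ext ((algebraMap F k).injective (inv_injective h3))).symm
          obtain ⟨σ, hσ⟩ := hres g
          refine ⟨σ, fun u => hact g σ hσ e u _ (by simpa using hg (u, 0)), fun _ u => ?_⟩
          simpa using hact g σ hσ e' u 0 (by simpa using hg (0, u))⟩)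
        (fun e => res (j + 1) ΦL (Subtype.ext (hΦc e)))
        (fun e d d' h => Subtype.ext (ΦL.injective (congrArg Subtype.val h)))
      exact ⟨g, fun e d => congrArg Subtype.val (hg e d)⟩
  obtain ⟨g, hg⟩ := key
  obtain ⟨π, hπ0, hπ⟩ := weil (span_Lf (U := U) (c := c) hd fun _ => natDegree_Pn.le) hD
    (by rwa [Fintype.card_coe]) hm ((g.symm : _ →+* _).comp ΦL) fun r => by
      rw [RingHom.comp_apply, show ΦL (algebraMap k[X] _ r) =
        algebraMap k[X] _ (r.map (iterateFrobenius k 2 m)) from Subtype.ext (hΦX r),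
        IsScalarTower.algebraMap_apply k[X] (FractionRing k[X])]
      exact g.symm.commutes _
  refine ⟨_, hπ0, hπ _ ?_, fun e he z hz => ?_⟩
  · show g.symm (ΦL (algebraMap k[X] _ X)) = algebraMap k[X] _ X
    rw [show ΦL (algebraMap k[X] _ X) = algebraMap k[X] _ X from
      Subtype.ext ((hΦX X).trans (by rw [map_X]; rfl)),
      IsScalarTower.algebraMap_apply k[X] (FractionRing k[X])]
    exact g.symm.commutes _
  · have hs : ∀ x : R ⟨e, he⟩, IsIntegral k[X] (x : Lf U (fun _ => Pn k n) c) := fun x =>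
      (sm_root (hd ⟨e, he⟩) (by rw [aeval_Pn]; exact (hR' _ _).1 x.2)).1
    have h1 : ∏ x : R ⟨e, he⟩, (algebraMap k (integralClosure k[X] (Lf U (fun _ => Pn k n) c)) z -
        ⟨x, hs x⟩) = algebraMap k _ z ^ (2 * n + 1) + algebraMap k _ z ^ (2 * n) -
        algebraMap k _ (c ⟨e, he⟩) * algebraMap k[X] _ X := by
      apply Subtype.ext
      rw [SubmonoidClass.coe_finsetProd]
      exact (Finset.prod_coe_sort (R ⟨e, he⟩) fun x => algebraMap k _ z - x).trans (hR'' _ _)
    have h2 := congrArg π h1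
    simp only [map_prod, map_sub, map_add, map_pow, map_mul, AlgHom.commutes,
      Algebra.algebraMap_self, RingHom.id_apply] at h2
    rw [hz, sub_self, Finset.prod_eq_zero_iff] at h2
    obtain ⟨x, -, hx⟩ := h2
    rw [sub_eq_zero.1 hx]
    refine hπ _ ?_
    show g.symm (ΦL x) = x
    have h0 := hx0 _ _ x.2
    have h3 := hg ⟨e, he⟩ ⟨(x : Lf U (fun _ => Pn k n) c)⁻¹, (inv_mem_Vs hj h0).2 ((hR' _ _).1 x.2)⟩
    rw [map_inv₀, map_inv₀, inv_inj] at h3
    rw [← h3, AlgEquiv.symm_apply_apply]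

theorem stepI_hom {F k K1 U : Type} [Field F] [Fintype F] [CharP F 2] [Field k] [IsAlgClosed k]
    [CharP k 2] [Algebra F k] [Field K1] [Algebra (PowerSeries k) K1]
    [IsFractionRing (PowerSeries k) K1] [Field U] [IsAlgClosed U] [Algebra K1 U] [Normal K1 U]
    {m n j : ℕ} (hF : Fintype.card F = 2 ^ m) (hn : 1 ≤ n) (hj : n + 1 = 2 ^ j)
    (φ : PowerSeries k →+* U) (hφ : ∀ p, φ p = algebraMap K1 U (algebraMap _ K1 p))
    (Φ : U →+* U) (hΦ : ∀ p, Φ (φ p) = φ (PowerSeries.map (iterateFrobenius k 2 m) p))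
    (E : Finset F) (hE0 : (0 : F) ∉ E) (hO : ∀ W ⊆ E, Odd W.card → ∑ e ∈ W, e⁻¹ ≠ 0) {a b : ℕ}
    (ha : ((j + 1) ^ 2 - 1) * E.card ≤ a) (hb : E.card * (2 * n + 1) * (2 * n + 1) ≤ 2 ^ b)
    (hm : 4 * a + 2 * b + 8 ≤ m) :
    ∃ t : k, t ≠ 0 ∧ t ^ 2 ^ m = t ∧ ∀ e ∈ E, ∀ y : k,
      y ^ (2 * n + 1) + y ^ (2 * n) = algebraMap F k e * t → y ^ 2 ^ m = y := by
  have hφi : Function.Injective φ := fun p q h => by
    rw [hφ, hφ] at h
    exact IsFractionRing.injective _ K1 ((algebraMap K1 U).injective h)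
  let j0 : k[X] →+* PowerSeries k := (Polynomial.coeToPowerSeries.ringHom).comp
    (expand k n : k[X] →+* k[X])
  have hj0 : Function.Injective (φ.comp j0) :=
    hφi.comp ((Polynomial.coe_injective k).comp (expand_injective hn))
  let _ : Algebra k[X] U := (φ.comp j0).toAlgebra
  let _ : Algebra k U := ((φ.comp j0).comp C).toAlgebra
  let _ : Algebra (FractionRing k[X]) U := (IsFractionRing.lift hj0).toAlgebra
  have : IsScalarTower k k[X] U := IsScalarTower.of_algebraMap_eq fun _ => rfl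
  have : IsScalarTower k[X] (FractionRing k[X]) U :=
    IsScalarTower.of_algebraMap_eq fun r => (IsFractionRing.lift_algebraMap hj0 r).symm
  have : IsScalarTower k (FractionRing k[X]) U := IsScalarTower.of_algebraMap_eq fun r => by
    rw [IsScalarTower.algebraMap_apply k k[X] (FractionRing k[X]),
      ← IsScalarTower.algebraMap_apply, ← IsScalarTower.algebraMap_apply]
  refine stepI_core (K1 := K1) hF hn hj φ hφ (fun c => ?_) ?_ Φ hΦ E hE0 hO ha hb hm
  · show φ (j0 (C c)) = _
    simp [j0]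
  · show φ (j0 X) = _
    simp [j0]

theorem stepI_k {F : Type} [Field F] [Fintype F] [CharP F 2] {m n j : ℕ}
    (hF : Fintype.card F = 2 ^ m) (hn : 1 ≤ n) (hj : n + 1 = 2 ^ j)
    (E : Finset F) (hE0 : (0 : F) ∉ E) (hO : ∀ W ⊆ E, Odd W.card → ∑ e ∈ W, e⁻¹ ≠ 0) {a b : ℕ}
    (ha : ((j + 1) ^ 2 - 1) * E.card ≤ a) (hb : E.card * (2 * n + 1) * (2 * n + 1) ≤ 2 ^ b)
    (hm : 4 * a + 2 * b + 8 ≤ m) :
    ∃ I : F, I ≠ 0 ∧ ∀ e ∈ E, ∃ V : Finset F, V.card = 2 ^ (j + 1) ∧
      ∀ d ∈ V, e * I * d ^ 2 ^ (j + 1) + d ^ 2 + d = 0 := by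
  classical
  let k := AlgebraicClosure F
  let ε : PowerSeries k ≃+* PowerSeries k := RingEquiv.ofRingHom
    (PowerSeries.map (iterateFrobenius k 2 m))
    (PowerSeries.map (iterateFrobeniusEquiv k 2 m).symm)
    (RingHom.ext fun x => by
      ext n
      exact (iterateFrobeniusEquiv k 2 m).apply_symm_apply _)
    (RingHom.ext fun x => by
      ext n
      exact (iterateFrobeniusEquiv k 2 m).symm_apply_apply _)
  let K1 := FractionRing (PowerSeries k)
  let U := AlgebraicClosure K1
  obtain ⟨t, ht0, ht, hr⟩ := stepI_hom (k := k) (K1 := K1) (U := U) hF hn hj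
    ((algebraMap K1 U).comp (algebraMap _ K1)) (fun _ => rfl)
    (IsAlgClosure.equivOfEquiv U U (IsFractionRing.ringEquivOfRingEquiv (K := K1) (L := K1) ε) :
      U →+* U) (fun p => by
      simp only [RingHom.comp_apply, RingHom.coe_coe, IsAlgClosure.equivOfEquiv_algebraMap,
        IsFractionRing.ringEquivOfRingEquiv_algebraMap]
      rfl) E hE0 hO ha hb hm
  have hrange : ∀ y : k, y ^ 2 ^ m = y → y ∈ (algebraMap F k).range := fun y hy => by
    have h1 := (FiniteField.isSplittingField_sub F F).splits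
    rw [Algebra.algebraMap_self, Polynomial.map_id] at h1
    refine h1.mem_range_of_isRoot (i := algebraMap F k)
      (FiniteField.X_pow_card_sub_X_ne_zero _ Fintype.one_lt_card) ?_
    simp [hF, hy]
  obtain ⟨I, rfl⟩ := hrange t ht
  have hI : I ≠ 0 := fun h => ht0 (by rw [h, map_zero])
  refine ⟨I, hI, fun e he => ?_⟩
  have ha0 : e * I ≠ 0 := mul_ne_zero (fun h => hE0 (h ▸ he)) hI
  have hm1 : (Pn F n - C (e * I)).Monic := monic_Pn.sub_of_left
    (degree_C_le.trans_lt (natDegree_pos_iff_degree_pos.1 (by rw [natDegree_Pn]; omega)))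
  have hsep : (Pn F n - C (e * I)).Separable := by
    have h2 : derivative (Pn F n - C (e * I)) = X ^ (2 * n) := by
      simp [Pn, derivative_X_pow, CharTwo.two_eq_zero]
    rw [separable_def, h2, Pn]
    refine ⟨-C (e * I)⁻¹, C (e * I)⁻¹ * (X + 1), ?_⟩
    have h3 : C (e * I)⁻¹ * C (e * I) = 1 := by rw [← C_mul, inv_mul_cancel₀ ha0, C_1]
    linear_combination h3
  have hsp : (Pn F n - C (e * I)).Splits :=
    Splits.of_splits_map (algebraMap F k) (IsAlgClosed.splits _) fun y hy => by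
      refine hrange y (hr e he y ?_)
      have := (mem_roots (hm1.map _).ne_zero).1 hy
      rwa [IsRoot.def, eval_map_algebraMap, map_sub, aeval_Pn, aeval_C, map_mul, sub_eq_zero] at this
  let _ : Module (ZMod 2) F := (ZMod.algebra _ 2).toModule
  have hc := card_Vs hn hj ha0 (Pn F n - C (e * I)).roots.toFinset (by
    rw [Multiset.toFinset_card_of_nodup (nodup_roots hsep), ← hsp.natDegree_eq_card_roots,
      natDegree_sub_C, natDegree_Pn]) fun x => by
    rw [Multiset.mem_toFinset, mem_roots hm1.ne_zero, IsRoot.def, eval_sub, eval_C, sub_eq_zero,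
      ← coe_aeval_eq_eval, aeval_Pn]
  refine ⟨Finset.univ.filter (· ∈ Vs (e * I) (j + 1)), ?_, fun d hd => (Finset.mem_filter.1 hd).2⟩
  rw [← hc, Nat.card_eq_fintype_card, Fintype.card_subtype]

end Pool.Agent.Lib.MP_587b89_lc.Lin
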