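import Pool.Agent.Lib.MP_587b89_lc.Lin.Pull

/-!
A point of the Artin-Schreier tower that avoids the subset relations.
-/

set_option autoImplicit false
set_option linter.unusedSectionVars false
set_option linter.overlappingInstances false
open Polynomial Module

namespace Pool.Agent.Lib.MP_587b89_lc.Lin

section gal

variable {k : Type} [Field k] {L : Type} [Field L] [Algebra k[X] L] [Algebra k L]
  [IsScalarTower k k[X] L] [Algebra (FractionRing k[X]) L]
  [IsScalarTower k[X] (FractionRing k[X]) L]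
  [FiniteDimensional (FractionRing k[X]) L] [IsGalois (FractionRing k[X]) L]

lemma cu_nsq [CharP k 2] (z : L) : z ^ 2 ≠ algebraMap k[X] L X := by
  intro h
  have h2 : (2 : L) = 0 := by rw [← map_ofNat (algebraMap k L) 2, CharTwo.two_eq_zero, map_zero]
  obtain ⟨r, rfl⟩ := (IsGalois.mem_range_algebraMap_iff_fixed (F := FractionRing k[X]) z).2
    fun σ => by
      have h1 : σ z ^ 2 = z ^ 2 := by
        rw [← map_pow, h, IsScalarTower.algebraMap_apply k[X] (FractionRing k[X]) L, σ.commutes]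
      have h3 : (σ z - z) ^ 2 = 0 := by linear_combination h1 + (z ^ 2 - σ z * z) * h2
      exact sub_eq_zero.1 ((pow_eq_zero_iff two_ne_zero).1 h3)
  obtain ⟨a, b, hb, rfl⟩ := IsFractionRing.div_surjective k[X] r
  have hb0 := nonZeroDivisors.ne_zero hb
  rw [map_div₀, ← IsScalarTower.algebraMap_apply, ← IsScalarTower.algebraMap_apply, div_pow,
    div_eq_iff (pow_ne_zero _ ((map_ne_zero_iff _ inj_L).2 hb0)), ← map_pow, ← map_pow,
    ← map_mul] at h
  have h4 := congrArg natDegree (inj_L h)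
  rw [natDegree_pow, natDegree_mul X_ne_zero (pow_ne_zero _ hb0), natDegree_pow,
    natDegree_X] at h4
  omega

lemma cu_av [IsAlgClosed k] [CharP k 2] {c s : ℕ} (hs : 1 ≤ s)
    (hc : Submodule.span (FractionRing k[X]) {x : L | Sm k c x} = ⊤)
    {J : Type} [Fintype J] (dd : J → integralClosure k[X] L) (h1 : ∀ j, Sm k 1 (dd j : L))
    (h0 : ∀ j, (dd j : L) ≠ 0) (T : Finset k)
    (hT : finrank (FractionRing k[X]) L * (2 ^ Fintype.card J * (1 + 2 ^ s * Fintype.card J))
      < T.card) :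
    ∃ π : integralClosure k[X] L →ₐ[k] k, π (algebraMap k[X] _ X) ∈ T ∧
      ∀ u : k, u ^ 2 ^ s = π (algebraMap k[X] _ X) → ∀ W : Finset J,
        (∀ j ∈ W, π (dd j) ≠ 0) → u * ∑ j ∈ W, (π (dd j))⁻¹ ≠ 1 := by
  classical
  have h2 : (2 : L) = 0 := by rw [← map_ofNat (algebraMap k L) 2, CharTwo.two_eq_zero, map_zero]
  have h2k : (2 : k) = 0 := CharTwo.two_eq_zero
  have hp : ∀ W : Finset J, Sm k (Fintype.card J) (∏ i ∈ W, (dd i : L)) := fun W =>
    (Sm.prod W _ fun i _ => h1 i).mono (by simpa using W.card_le_univ)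
  have hG : ∀ W : Finset J, Sm k (1 + 2 ^ s * Fintype.card J)
      (algebraMap k[X] L X * (∑ j ∈ W, ∏ i ∈ W.erase j, (dd i : L)) ^ 2 ^ s
        + (∏ i ∈ W, (dd i : L)) ^ 2 ^ s) := fun W =>
    (sm_X.mul ((Sm.sum W _ fun j _ => hp _).pow _)).add (((hp W).pow _).mono (by omega))
  have hg := Sm.prod Finset.univ _ fun W _ => hG W
  rw [Finset.card_univ, Fintype.card_finset] at hg
  obtain ⟨π, hπ, hne⟩ := avoid hc hg (Finset.prod_ne_zero_iff.2 fun W _ h => by
    have hβ : ∏ i ∈ W, (dd i : L) ≠ 0 := Finset.prod_ne_zero_iff.2 fun i _ => h0 i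
    generalize ∏ i ∈ W, (dd i : L) = β at h hβ
    generalize ∑ j ∈ W, ∏ i ∈ W.erase j, (dd i : L) = α at h
    obtain ⟨r, rfl⟩ := Nat.exists_eq_add_of_le' hs
    have hα : α ≠ 0 := by
      rintro rfl
      rw [zero_pow (by positivity), mul_zero, zero_add] at h
      exact pow_ne_zero _ hβ h
    refine cu_nsq (k := k) ((β / α) ^ 2 ^ r) ?_
    rw [← pow_mul, ← pow_succ, div_pow, div_eq_iff (pow_ne_zero _ hα)]
    linear_combination h - algebraMap k[X] L X * α ^ 2 ^ (r + 1) * h2) T hT
  refine ⟨π, hπ, fun u hu W hW h => hne ?_⟩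
  have e : (⟨_, hg.1⟩ : integralClosure k[X] L) = ∏ W : Finset J,
      (algebraMap k[X] _ X * (∑ j ∈ W, ∏ i ∈ W.erase j, dd i) ^ 2 ^ s
        + (∏ i ∈ W, dd i) ^ 2 ^ s) := Subtype.ext (by simp)
  rw [e, map_prod]
  refine Finset.prod_eq_zero (Finset.mem_univ W) ?_
  simp only [map_prod, map_add, map_mul, map_pow, map_sum]
  have e2 : ∑ j ∈ W, ∏ i ∈ W.erase j, π (dd i) = (∏ i ∈ W, π (dd i)) * ∑ j ∈ W, (π (dd j))⁻¹ := by
    rw [Finset.mul_sum]
    refine Finset.sum_congr rfl fun j hj => ?_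
    rw [← Finset.mul_prod_erase W _ hj, mul_right_comm, mul_inv_cancel₀ (hW j hj), one_mul]
  rw [e2, ← hu, ← mul_pow, mul_left_comm, h, mul_one, ← two_mul, h2k, zero_mul]

end gal

/-- the additive polynomial -/
noncomputable def cuP {k : Type} [Field k] (s : ℕ) (a : k) : k[X] := C a * X ^ 2 ^ s + X ^ 2 + X

lemma cuP_two {s : ℕ} (hs : 1 ≤ s) : 2 ≤ 2 ^ s := Nat.le_self_pow (by omega) 2

lemma cuP_le {k : Type} [Field k] {s : ℕ} (hs : 1 ≤ s) (a : k) : (cuP s a).natDegree ≤ 2 ^ s := by
  have := cuP_two hs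
  refine natDegree_add_le_of_degree_le (natDegree_add_le_of_degree_le
    (natDegree_C_mul_X_pow_le _ _) ?_) ?_
  · rwa [natDegree_X_pow]
  · rw [natDegree_X]; omega

lemma cuP_ge {k : Type} [Field k] {s : ℕ} (hs : 1 ≤ s) (a : k) : 1 ≤ (cuP s a).natDegree := by
  have := cuP_two hs
  refine le_natDegree_of_ne_zero ?_
  rw [cuP, coeff_add, coeff_add, coeff_C_mul, coeff_X_pow, coeff_X_pow, coeff_X_one,
    if_neg (by omega), if_neg (by omega)]
  simp

lemma cuP_der {k : Type} [Field k] [CharP k 2] {s : ℕ} (hs : 1 ≤ s) (a : k) :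
    derivative (cuP s a) = 1 := by
  have h2 : (2 : k) = 0 := CharTwo.two_eq_zero
  rw [cuP, derivative_add, derivative_add, derivative_C_mul, derivative_X_pow, derivative_X_pow,
    Nat.cast_pow, Nat.cast_ofNat, h2, zero_pow (by omega)]
  simp

lemma cuP_aeval {k A : Type} [Field k] [CommRing A] [Algebra k A] (s : ℕ) (a : k) (x : A) :
    aeval x (cuP s a) = algebraMap k A a * x ^ 2 ^ s + x ^ 2 + x := by
  simp [cuP]

lemma cuP_add {k A : Type} [Field k] [CommRing A] [Algebra k A] [CharP A 2] (s : ℕ) (a : k)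
    (x y : A) : aeval (x + y) (cuP s a) = aeval x (cuP s a) + aeval y (cuP s a) := by
  simp only [cuP_aeval]
  rw [add_pow_char_pow, add_pow_char]
  ring

section tower

variable {k : Type} [Field k] (U : Type) [Field U] [Algebra k[X] U] [Algebra k U]
  [IsScalarTower k k[X] U] [Algebra (FractionRing k[X]) U]
  [IsScalarTower k[X] (FractionRing k[X]) U] [IsScalarTower k (FractionRing k[X]) U]
  [IsAlgClosed U] [IsAlgClosed k] [CharP k 2] {ι : Type} [Fintype ι]

lemma cu_rank {s : ℕ} (hs : 1 ≤ s) (a : ι → k)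
    [FiniteDimensional (FractionRing k[X]) (Lf U (fun e => cuP s (a e)) a)]
    [IsGalois (FractionRing k[X]) (Lf U (fun e => cuP s (a e)) a)]
    (d : ι → Lf U (fun e => cuP s (a e)) a)
    (hd : ∀ e, aeval (d e) (cuP s (a e)) = algebraMap k _ (a e) * algebraMap k[X] _ X) :
    finrank (FractionRing k[X]) (Lf U (fun e => cuP s (a e)) a) ≤ (2 ^ s) ^ Fintype.card ι := by
  classical
  have hch : CharP (Lf U (fun e => cuP s (a e)) a) 2 :=
    charP_of_injective_algebraMap (algebraMap k _).injective 2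
  rw [← IsGalois.card_aut_eq_finrank, Nat.card_eq_fintype_card, ← Finset.card_univ]
  refine (Finset.card_le_card_of_injOn (fun σ e => σ (d e)) (t := Fintype.piFinset fun e =>
    ((fK (cuP s (a e)) (a e)).aroots (Lf U (fun e => cuP s (a e)) a)).toFinset)
    (fun σ _ => ?_) fun σ _ τ _ h => ?_).trans ?_
  · refine Finset.mem_coe.2 (Fintype.mem_piFinset.2 fun e => ?_)
    rw [Multiset.mem_toFinset, mem_aroots, aeval_algHom_apply, aeval_fK, hd, sub_self, map_zero]
    exact ⟨fK_ne (cuP_ge hs _) _, rfl⟩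
  · refine aut_ext (fun e => cuP_ge hs _) fun e x hx => ?_
    have h1 : aeval (x + d e) (cuP s (a e)) = 0 := by
      rw [cuP_add, hx, hd, CharTwo.add_self_eq_zero]
    obtain ⟨v, hv⟩ := (IsAlgClosed.splits (cuP s (a e))).mem_range_of_isRoot
      (fun h => by have := cuP_ge hs (a e); simp [h] at this)
      (i := algebraMap k (Lf U (fun e => cuP s (a e)) a)) (x := x + d e)
      (by rwa [IsRoot.def, eval_map_algebraMap])
    have h3 : ∀ ρ : Lf U (fun e => cuP s (a e)) a ≃ₐ[FractionRing k[X]]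
        Lf U (fun e => cuP s (a e)) a, ρ x + ρ (d e) = x + d e := fun ρ => by
      rw [← map_add, ← hv, IsScalarTower.algebraMap_apply k (FractionRing k[X]), ρ.commutes]
    have h4 : σ (d e) = τ (d e) := congrFun h e
    exact add_right_cancel ((h3 σ).trans (h4 ▸ (h3 τ).symm))
  · rw [Fintype.card_piFinset, ← Finset.card_univ]
    exact Finset.prod_le_pow_card _ _ _ fun e _ => (Multiset.toFinset_card_le _).trans
      ((card_roots' _).trans (natDegree_map_le.trans ((natDegree_fK _ _).trans_le (cuP_le hs _))))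

include U in
lemma cu_ff {s : ℕ} (hs : 1 ≤ s) (a : ι → k) (ha : ∀ e, a e ≠ 0) {J : Type} [Fintype J]
    (p : J → ι) (v : J → k) (T : Finset k)
    (hT : (2 ^ s) ^ Fintype.card ι * (2 ^ (Fintype.card J + 1) *
      (1 + 2 ^ s * (Fintype.card J + 1))) < T.card) :
    ∃ t ∈ T, ∃ y : ι → k, (∀ e, aeval (y e) (cuP s (a e)) = a e * t) ∧
      ∀ x : Option J → k, x none = 1 → (∀ j, x (some j) = y (p j) + v j) →
        ∀ u : k, u ^ 2 ^ s = t → ∀ W : Finset (Option J), (∀ j ∈ W, x j ≠ 0) →
          u * ∑ j ∈ W, (x j)⁻¹ ≠ 1 := by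
  have := fd_Lf (U := U) (P := fun e => cuP s (a e)) (c := a)
  have := gal_Lf (U := U) (P := fun e => cuP s (a e)) (c := a) fun e => by
    rw [separable_def, fK, derivative_sub, derivative_map, cuP_der hs, derivative_C]
    simpa using isCoprime_one_right
  have hex : ∀ e, ∃ d : Lf U (fun e => cuP s (a e)) a,
      aeval d (cuP s (a e)) = algebraMap k _ (a e) * algebraMap k[X] _ X := fun e => by
    obtain ⟨x, hx⟩ := IsAlgClosed.exists_aeval_eq_zero U (fK (cuP s (a e)) (a e))
      (natDegree_pos_iff_degree_pos.1 ((cuP_ge hs (a e)).trans_eq (natDegree_fK _ _).symm)).ne'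
    rw [aeval_fK, sub_eq_zero] at hx
    exact ⟨⟨x, mem_Lf (fun e => cuP_ge hs _) hx⟩, (root_coe _).2 hx⟩
  choose d hd using hex
  have hsm : ∀ e, Sm k 1 (d e) := fun e => sm_root (cuP_ge hs _) (hd e)
  obtain ⟨db, hdb⟩ : ∃ db : ι → integralClosure k[X] (Lf U (fun e => cuP s (a e)) a),
      ∀ e, (db e).1 = d e := ⟨fun e => ⟨d e, (hsm e).1⟩, fun _ => rfl⟩
  obtain ⟨π, hπ, hW⟩ := cu_av hs (span_Lf (U := U) (P := fun e => cuP s (a e)) (c := a)
      (fun e => cuP_ge hs _) fun e => cuP_le hs _)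
    (fun j : Option J => j.elim 1 fun j => db (p j) + algebraMap k _ (v j))
    (fun j => by
      cases j with
      | none => exact sm_one.mono (Nat.zero_le 1)
      | some j => exact (hdb (p j) ▸ hsm (p j)).add ((sm_const (v j)).mono (Nat.zero_le 1)))
    (fun j => by
      cases j with
      | none => exact one_ne_zero
      | some j =>
        intro h
        have h1 : d (p j) = algebraMap k _ (-v j) := by
          rw [map_neg, ← hdb]; exact eq_neg_of_add_eq_zero_left h
        have h3 := hd (p j)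
        rw [h1, aeval_algebraMap_apply, IsScalarTower.algebraMap_apply k k[X] _ (a (p j)),
          IsScalarTower.algebraMap_apply k k[X] _ (aeval _ _), ← map_mul] at h3
        have h4 := congrArg (coeff · 1) (inj_L h3)
        simp only [algebraMap_eq, coeff_C_mul, coeff_X_one, mul_one, coeff_C_succ] at h4
        exact ha _ h4.symm)
    T (lt_of_le_of_lt (Nat.mul_le_mul (cu_rank U hs a d hd) (by rw [Fintype.card_option])) hT)
  refine ⟨_, hπ, fun e => π (db e), fun e => ?_, fun x h1 h2 u hu W hx => ?_⟩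
  · have e1 : aeval (db e) (cuP s (a e)) = algebraMap k _ (a e) * algebraMap k[X] _ X :=
      Subtype.ext (by
        have := hd e
        rw [← hdb, cuP_aeval] at this
        rw [cuP_aeval]
        exact this)
    rw [aeval_algHom_apply, e1, map_mul, π.commutes]
    rfl
  · have e1 : ∀ j : Option J, π (j.elim 1 fun j => db (p j) + algebraMap k _ (v j)) = x j := by
      intro j
      cases j with
      | none => simp [h1]
      | some j => simp [h2]
    have := hW u hu W fun j hj => by rw [e1]; exact hx j hj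
    simpa only [e1] using this

end tower

end Pool.Agent.Lib.MP_587b89_lc.Lin
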