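import Pool.Agent.Lib.MP_587b89_lc.Lin.Spl

/-!
The space of roots of an additive trinomial.
-/

set_option autoImplicit false
set_option linter.unusedSectionVars false
set_option linter.overlappingInstances false
open Polynomial Module

namespace Pool.Agent.Lib.MP_587b89_lc.Lin

lemma z2 (c : ZMod 2) : c = 0 ∨ c = 1 := by revert c; decide

section
variable {L : Type} [Field L] [CharP L 2] [Module (ZMod 2) L]

/-- the roots of `a d ^ (2 ^ s) + d ^ 2 + d` -/
def Vs (a : L) (s : ℕ) : Submodule (ZMod 2) L where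
  carrier := {d | a * d ^ 2 ^ s + d ^ 2 + d = 0}
  add_mem' {x y} hx hy := by
    show a * (x + y) ^ 2 ^ s + (x + y) ^ 2 + (x + y) = 0
    rw [add_pow_char_pow, add_pow_char]
    have h1 : a * x ^ 2 ^ s + x ^ 2 + x = 0 := hx
    have h2 : a * y ^ 2 ^ s + y ^ 2 + y = 0 := hy
    linear_combination h1 + h2
  zero_mem' := by simp
  smul_mem' c x hx := by
    rcases z2 c with rfl | rfl
    · simp
    · rwa [one_smul]

lemma mem_Vs {a d : L} {s : ℕ} : d ∈ Vs a s ↔ a * d ^ 2 ^ s + d ^ 2 + d = 0 := Iff.rfl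

/-- restriction of an endomorphism of the field -/
def res {a : L} (s : ℕ) (Ψ : L →+* L) (h : Ψ a = a) : Module.End (ZMod 2) (Vs a s) where
  toFun d := ⟨Ψ d, by
    have := congrArg Ψ (mem_Vs.1 d.2)
    rw [map_add, map_add, map_mul, map_pow, map_pow, h, map_zero] at this
    exact this⟩
  map_add' x y := Subtype.ext (map_add Ψ _ _)
  map_smul' c x := by
    rcases z2 c with rfl | rfl
    · exact Subtype.ext (by simp)
    · simp

lemma smul_val (c : ZMod 2) (v : L) : c • v = (c.val : L) * v := by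
  rcases z2 c with rfl | rfl
  · simp
  · rw [one_smul, ZMod.val_one, Nat.cast_one, one_mul]

lemma inv_mem_Vs {n j : ℕ} (hj : n + 1 = 2 ^ j) {a x : L} (hx : x ≠ 0) :
    x⁻¹ ∈ Vs a (j + 1) ↔ x ^ (2 * n + 1) + x ^ (2 * n) = a := by
  have h2 : (2 : L) = 0 := CharTwo.two_eq_zero
  have h3 := mul_inv_cancel₀ hx
  rw [mem_Vs, show 2 ^ (j + 1) = 2 * n + 2 by rw [pow_succ, ← hj]; ring]
  have h4 : x ^ (2 * n + 2) * (a * x⁻¹ ^ (2 * n + 2) + x⁻¹ ^ 2 + x⁻¹) =
      x ^ (2 * n + 1) + x ^ (2 * n) - a := by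
    have h5 : x ^ (2 * n + 2) * x⁻¹ ^ (2 * n + 2) = 1 := by rw [← mul_pow, h3, one_pow]
    linear_combination a * h5 + x ^ (2 * n) * (x * x⁻¹ + 1 + x) * h3 + a * h2
  rw [← sub_eq_zero (a := x ^ (2 * n + 1) + x ^ (2 * n)), ← h4, mul_eq_zero,
    or_iff_right (pow_ne_zero _ hx)]

lemma card_Vs {n j : ℕ} (hn : 1 ≤ n) (hj : n + 1 = 2 ^ j) {a : L} (ha : a ≠ 0) (R : Finset L)
    (hR : R.card = 2 * n + 1) (hR' : ∀ x, x ∈ R ↔ x ^ (2 * n + 1) + x ^ (2 * n) = a) :
    Nat.card (Vs a (j + 1)) = 2 ^ (j + 1) := by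
  classical
  have h0 : ∀ x ∈ R, x ≠ 0 := fun x hx e => ha (by
    rw [← (hR' x).1 hx, e, zero_pow (by omega), zero_pow (by omega), add_zero])
  have h1 : (Vs a (j + 1) : Set L) = ↑(insert 0 (R.image fun x => x⁻¹)) := by
    ext d
    simp only [SetLike.mem_coe, Finset.coe_insert, Finset.coe_image, Set.mem_insert_iff,
      Set.mem_image]
    constructor
    · intro hd
      refine (eq_or_ne d 0).imp id fun h => ⟨d⁻¹, ?_, inv_inv d⟩
      rw [hR', ← inv_mem_Vs hj (inv_ne_zero h), inv_inv]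
      exact hd
    · rintro (rfl | ⟨x, hx, rfl⟩)
      · exact zero_mem _
      · exact (inv_mem_Vs hj (h0 x hx)).2 ((hR' x).1 hx)
  rw [← SetLike.coe_sort_coe, h1, Finset.coe_sort_coe, Nat.card_eq_finsetCard,
    Finset.card_insert_of_notMem, Finset.card_image_of_injective _ inv_injective, hR, pow_succ,
    ← hj]
  · ring
  · intro h
    obtain ⟨x, hx, e⟩ := Finset.mem_image.1 h
    exact h0 x hx (inv_eq_zero.1 e)

lemma finrank_Vs {a : L} {s : ℕ} (h : Nat.card (Vs a s) = 2 ^ s) :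
    Module.Finite (ZMod 2) (Vs a s) ∧ finrank (ZMod 2) (Vs a s) = s := by
  have : Finite (Vs a s) := Nat.finite_of_card_ne_zero (by rw [h]; positivity)
  refine ⟨inferInstance, ?_⟩
  have := Fintype.ofFinite (Vs a s)
  rw [Nat.card_eq_fintype_card, Module.card_eq_pow_finrank (K := ZMod 2), ZMod.card] at h
  exact Nat.pow_right_injective le_rfl h

lemma exists_dual {W : Type} [AddCommGroup W] [Module (ZMod 2) W] (ψ : W →+ L)
    (h : ∀ x, ψ x = 0 ∨ ψ x = 1) :
    ∃ l : Module.Dual (ZMod 2) W, ∀ x, ((l x).val : L) = ψ x := by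
  have h1 : ∀ x, ∃ c : ZMod 2, ZMod.castHom (dvd_refl 2) L c = ψ x := fun x =>
    (h x).elim (fun e => ⟨0, by rw [e, map_zero]⟩) fun e => ⟨1, by rw [e, map_one]⟩
  choose l hl using h1
  refine ⟨(AddMonoidHom.mk' l fun x y => (ZMod.castHom (dvd_refl 2) L).injective (by
    rw [map_add, hl, hl, hl, map_add])).toZModLinearMap 2, fun x => ?_⟩
  rw [← hl, ZMod.castHom_apply, ZMod.cast_eq_val]
  rfl

end

/-- the binomial -/
noncomputable def Pn (k : Type) [Field k] (n : ℕ) : k[X] := X ^ (2 * n + 1) + X ^ (2 * n)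

variable {k : Type} [Field k] {n : ℕ}

lemma monic_Pn : (Pn k n).Monic :=
  monic_X_pow_add (by rw [degree_X_pow]; exact_mod_cast Nat.lt_succ_self _)

lemma natDegree_Pn : (Pn k n).natDegree = 2 * n + 1 := by
  rw [Pn, natDegree_add_eq_left_of_natDegree_lt] <;> simp

lemma aeval_Pn {A : Type} [CommRing A] [Algebra k A] (x : A) :
    aeval x (Pn k n) = x ^ (2 * n + 1) + x ^ (2 * n) := by simp [Pn]

lemma sep_Pn [CharP k 2] {c : k} (hc : c ≠ 0) : (fK (Pn k n) c).Separable := by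
  have : CharP (FractionRing k[X]) 2 :=
    charP_of_injective_algebraMap (algebraMap k (FractionRing k[X])).injective 2
  obtain ⟨a, ha⟩ : ∃ a, a = algebraMap k[X] (FractionRing k[X]) (C c * X) := ⟨_, rfl⟩
  have ha0 : a ≠ 0 := ha ▸ (map_ne_zero_iff _ (IsFractionRing.injective _ _)).2
    (mul_ne_zero (C_ne_zero.2 hc) X_ne_zero)
  have h1 : fK (Pn k n) c = X ^ (2 * n + 1) + X ^ (2 * n) - C a := by simp [fK, Pn, ha]
  have h2 : derivative (fK (Pn k n) c) = X ^ (2 * n) := by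
    simp [h1, derivative_X_pow, CharTwo.two_eq_zero]
  rw [separable_def, h2, h1]
  refine ⟨-C a⁻¹, C a⁻¹ * (X + 1), ?_⟩
  have h3 : C a⁻¹ * C a = 1 := by rw [← C_mul, inv_mul_cancel₀ ha0, C_1]
  linear_combination h3

lemma irr_fK {P : k[X]} (hP : P.Monic) (hd : 1 ≤ P.natDegree) {c : k} (hc : c ≠ 0) :
    Irreducible (fK P c) := by
  have hm : (P.map C - C (C c * X) : k[X][X]).Monic := (hP.map C).sub_of_left
    (degree_C_le.trans_lt (natDegree_pos_iff_degree_pos.1 (by rwa [hP.natDegree_map])))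
  have h1 : fK P c = (P.map C - C (C c * X) : k[X][X]).map (algebraMap k[X] _) := by
    rw [fK, Polynomial.map_sub, map_C, Polynomial.map_map]
    rfl
  rw [h1, ← hm.irreducible_iff_irreducible_map_fraction_map,
    ← MulEquiv.irreducible_iff (Bivariate.swap (R := k))]
  have h2 : Bivariate.swap (P.map C - C (C c * X) : k[X][X]) =
      C (C (-c)) * (X - C (C c⁻¹ * P)) := by
    have h3 : (C (C c) : k[X][X]) * C (C c⁻¹) = 1 := by
      rw [← C_mul, ← C_mul, mul_inv_cancel₀ hc, C_1, C_1]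
    rw [map_sub, Bivariate.swap_map_C, C_mul, map_mul, Bivariate.swap_C_C, Bivariate.swap_X,
      C_mul, C_neg, C_neg]
    linear_combination -C P * h3
  rw [h2, irreducible_isUnit_mul (isUnit_C.2 (isUnit_C.2 (neg_ne_zero.2 hc).isUnit))]
  exact irreducible_X_sub_C _

end Pool.Agent.Lib.MP_587b89_lc.Lin
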